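import Pool.Agent.Lib_helper75.Coh.FormsH

/-!
# Binary forms: divisibility by linear forms
-/

set_option autoImplicit false

namespace CohP1

open Module MvPolynomial

/-- the linear form vanishing at `P` -/
noncomputable def lin (P : Fin 2 → ℂ) : S := C (P 1) * X 0 - C (P 0) * X 1

theorem lin_mem (P : Fin 2 → ℂ) : lin P ∈ Forms 1 := by
  unfold lin
  have h0 := forms_mul_mem (C_mem_forms (P 1)) (X_mem_forms 0)
  have h1 := forms_mul_mem (C_mem_forms (P 0)) (X_mem_forms 1)
  rw [zero_add] at h0 h1
  exact Submodule.sub_mem _ h0 h1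

theorem eval_lin (P : Fin 2 → ℂ) : eval P (lin P) = 0 := by
  unfold lin
  simp
  ring

theorem lin_ne_zero {P : Fin 2 → ℂ} (hP : P ≠ 0) : lin P ≠ 0 := by
  intro h
  apply hP
  have h0 := congrArg (eval ![1, 0]) h
  have h1 := congrArg (eval ![0, 1]) h
  unfold lin at h0 h1
  simp at h0 h1
  ext j
  fin_cases j
  · exact h1
  · exact h0

/-- `X_0 - s X_1` divides `p - p(s X_1, X_1)` -/
theorem dvd_sub_aeval (g0 g1 : S) (h0 : S) (hx : h0 ∣ X 0 - g0) (hy : h0 ∣ X 1 - g1) (p : S) :
    h0 ∣ p - aeval ![g0, g1] p := by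
  induction p using MvPolynomial.induction_on with
  | C a => simp [MvPolynomial.algebraMap_eq]
  | add p q hp hq =>
    rw [map_add]
    have : p + q - (aeval ![g0, g1] p + aeval ![g0, g1] q)
      = (p - aeval ![g0, g1] p) + (q - aeval ![g0, g1] q) := by ring
    rw [this]
    exact dvd_add hp hq
  | mul_X p i hp =>
    rw [map_mul, aeval_X]
    have hi : h0 ∣ X i - (![g0, g1] i) := by
      fin_cases i
      · exact hx
      · exact hy
    have : p * X i - aeval ![g0, g1] p * ![g0, g1] i
      = (p - aeval ![g0, g1] p) * X i + aeval ![g0, g1] p * (X i - ![g0, g1] i) := by ring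
    rw [this]
    exact dvd_add (hp.mul_right _) (hi.mul_left _)

/-- substitution of multiples of one polynomial in a form -/
theorem aeval_smul_forms {n : ℕ} {p : S} (hp : p ∈ Forms (n : ℤ)) (s : Fin 2 → ℂ) (y : S) :
    aeval (fun i => C (s i) * y) p = C (eval s p) * y ^ n := by
  rw [aeval_def, eval₂_eq', eval_eq', map_sum, Finset.sum_mul]
  apply Finset.sum_congr rfl
  intro m hm
  have hmn : m 0 + m 1 = n := by exact_mod_cast hp m hm
  simp only [Fin.prod_univ_two, mul_pow, map_mul, map_pow, MvPolynomial.algebraMap_eq]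
  rw [← hmn, pow_add]
  ring

/-- a form vanishing at `P ≠ 0` is divisible by the linear form `lin P` -/
theorem lin_dvd {n : ℕ} {p : S} (hp : p ∈ Forms (n : ℤ)) {P : Fin 2 → ℂ} (hP : P ≠ 0)
    (h : eval P p = 0) : lin P ∣ p := by
  by_cases h1 : P 1 = 0
  · have h0 : P 0 ≠ 0 := by
      intro h0
      apply hP
      ext j
      fin_cases j
      · exact h0
      · exact h1
    -- lin P = - P0 X1
    have hd := dvd_sub_aeval (C (P 0) * (C (P 0)⁻¹ * X 0)) (C (P 1) * (C (P 0)⁻¹ * X 0)) (lin P)
      (by
        have : C (P 0) * (C (P 0)⁻¹ * X 0) = (X 0 : S) := by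
          rw [← mul_assoc, ← map_mul, mul_inv_cancel₀ h0, map_one, one_mul]
        rw [this, sub_self]; exact dvd_zero _)
      (by
        refine ⟨C (-(P 0)⁻¹), ?_⟩
        unfold lin
        rw [h1]
        have : (C (P 0) * C (-(P 0)⁻¹) : S) = -1 := by
          rw [← map_mul]
          have : P 0 * (-(P 0)⁻¹) = -1 := by field_simp
          rw [this, map_neg, map_one]
        simp only [map_zero, zero_mul, zero_sub, sub_zero]
        linear_combination (X 1 : S) * this) p
    have he : aeval ![C (P 0) * (C (P 0)⁻¹ * X 0), C (P 1) * (C (P 0)⁻¹ * X 0)] p = (0 : S) := by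
      have h2 : (![C (P 0) * (C (P 0)⁻¹ * X 0), C (P 1) * (C (P 0)⁻¹ * X 0)] : Fin 2 → S)
          = fun i => C (P i) * (C (P 0)⁻¹ * X 0) := by
        ext i
        fin_cases i <;> rfl
      rw [h2, aeval_smul_forms hp, h, map_zero, zero_mul]
    rwa [he, sub_zero] at hd
  · have hd := dvd_sub_aeval (C (P 0) * (C (P 1)⁻¹ * X 1)) (C (P 1) * (C (P 1)⁻¹ * X 1)) (lin P)
      (by
        refine ⟨C (P 1)⁻¹, ?_⟩
        unfold lin
        have : (C (P 1) * C (P 1)⁻¹ : S) = 1 := by
          rw [← map_mul, mul_inv_cancel₀ h1, map_one]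
        linear_combination (-(X 0 : S)) * this)
      (by
        have : C (P 1) * (C (P 1)⁻¹ * X 1) = (X 1 : S) := by
          rw [← mul_assoc, ← map_mul, mul_inv_cancel₀ h1, map_one, one_mul]
        rw [this, sub_self]; exact dvd_zero _) p
    have he : aeval ![C (P 0) * (C (P 1)⁻¹ * X 1), C (P 1) * (C (P 1)⁻¹ * X 1)] p = (0 : S) := by
      have h2 : (![C (P 0) * (C (P 1)⁻¹ * X 1), C (P 1) * (C (P 1)⁻¹ * X 1)] : Fin 2 → S)
          = fun i => C (P i) * (C (P 1)⁻¹ * X 1) := by
        ext i
        fin_cases i <;> rfl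
      rw [h2, aeval_smul_forms hp, h, map_zero, zero_mul]
    rwa [he, sub_zero] at hd

/-- KEY: a form of degree `a` vanishing at `P ≠ 0` is `lin P` times a form of degree `a - 1`. -/
theorem exists_lin_mul {a : ℤ} {p : S} (hp : p ∈ Forms a) {P : Fin 2 → ℂ} (hP : P ≠ 0)
    (h : eval P p = 0) : ∃ q ∈ Forms (a - 1), p = lin P * q := by
  rcases lt_or_ge a 0 with ha | ha
  · rw [forms_eq_bot ha, Submodule.mem_bot] at hp
    exact ⟨0, Submodule.zero_mem _, by rw [hp, mul_zero]⟩
  · obtain ⟨n, rfl⟩ := Int.eq_ofNat_of_zero_le ha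
    obtain ⟨q, hq⟩ := lin_dvd hp hP h
    refine ⟨comp ((n : ℤ) - 1) q, comp_mem _ _, ?_⟩
    have h1 := comp_mul (d := (n : ℤ) - 1) q (lin_mem P)
    rw [sub_add_cancel, mul_comm q, ← hq] at h1
    have h2 : comp (n : ℤ) p = p := by
      ext m
      rw [coeff_comp]
      split_ifs with h3
      · rfl
      · exact (coeff_eq_zero_of_forms hp h3).symm
    rw [h2] at h1
    rw [mul_comm]
    exact h1

/-- a form of positive degree has a zero -/
theorem exists_zero {n : ℕ} {p : S} (hp : p ∈ Forms ((n + 1 : ℕ) : ℤ)) :
    ∃ P : Fin 2 → ℂ, P ≠ 0 ∧ eval P p = 0 := by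
  by_cases h : eval ![1, 0] p = 0
  · exact ⟨![1, 0], by intro h; have := congrFun h 0; simp at this, h⟩
  · -- f(t) = p(t,1) has degree n+1
    set f : Polynomial ℂ := aeval ![(Polynomial.X : Polynomial ℂ), 1] p with hf
    have hev : ∀ t : ℂ, f.eval t = eval ![t, 1] p := by
      intro t
      have : (Polynomial.evalRingHom t).comp (aeval ![(Polynomial.X : Polynomial ℂ), 1]).toRingHom
          = eval ![t, 1] := by
        apply MvPolynomial.ringHom_ext
        · intro r
          simp
        · intro i
          fin_cases i <;> simp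
      exact RingHom.congr_fun this p
    by_cases hdeg : f.degree = 0
    · exfalso
      -- f constant: p = c * X1^(n+1), so p(1,0) = 0
      obtain ⟨c, hc⟩ : ∃ c : ℂ, f = Polynomial.C c := ⟨_, Polynomial.eq_C_of_degree_eq_zero hdeg⟩
      apply h
      have hall : ∀ t : ℂ, eval ![t, 1] p = c := by
        intro t; rw [← hev, hc, Polynomial.eval_C]
      -- p(1, s) = s^(n+1) * p(1/s, 1) = c s^(n+1)
      have hs : ∀ s : ℂ, s ≠ 0 → eval ![1, s] p = s ^ (n + 1) * c := by
        intro s hs
        have h1 := aeval_smul_forms hp ![s⁻¹, 1] (C s)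
        have h2 := congrArg (eval ![0, 0]) h1
        rw [hall] at h2
        have h3 : eval ![0, 0] (aeval (fun i => C (![s⁻¹, 1] i) * C s) p : S) = eval ![1, s] p := by
          have : (eval ![0, 0]).comp (aeval (fun i => (C (![s⁻¹, 1] i) * C s : S))).toRingHom
              = eval ![1, s] := by
            apply MvPolynomial.ringHom_ext
            · intro r
              simp
            · intro i
              fin_cases i
              · simp [hs]
              · simp
          exact RingHom.congr_fun this p
        rw [h3] at h2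
        rw [h2]
        simp
        ring
      -- polynomial identity in s
      set g : Polynomial ℂ := aeval ![1, (Polynomial.X : Polynomial ℂ)] p
        - Polynomial.C c * Polynomial.X ^ (n + 1) with hg
      have hev2 : ∀ t : ℂ, g.eval t = eval ![1, t] p - c * t ^ (n + 1) := by
        intro t
        have : (Polynomial.evalRingHom t).comp
            (aeval ![1, (Polynomial.X : Polynomial ℂ)]).toRingHom = eval ![1, t] := by
          apply MvPolynomial.ringHom_ext
          · intro r
            simp
          · intro i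
            fin_cases i <;> simp
        have h2 := RingHom.congr_fun this p
        rw [hg, Polynomial.eval_sub]
        congr 1
        simp
      have hg0 : g = 0 := by
        apply Polynomial.eq_zero_of_infinite_isRoot
        apply Set.Infinite.mono (s := {0}ᶜ)
        · intro s hs0
          show g.eval s = 0
          rw [hev2, hs s hs0]
          ring
        · exact Set.Finite.infinite_compl (Set.finite_singleton _)
      have := hev2 0
      rw [hg0] at this
      simp at this
      exact this.symm
    · by_cases hf0 : f = 0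
      · refine ⟨![0, 1], by intro h; have := congrFun h 1; simp at this, ?_⟩
        rw [← hev, hf0, Polynomial.eval_zero]
      · obtain ⟨t, ht⟩ := IsAlgClosed.exists_root f hdeg
        refine ⟨![t, 1], by intro h; have := congrFun h 1; simp at this, ?_⟩
        rw [← hev]; exact ht

end CohP1
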