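import Pool.Agent.Lib_helper87.Coh.System

/-!
# Block H: binary forms
-/

set_option autoImplicit false

namespace CohP1

open Module MvPolynomial

theorem mem_forms {a : ℤ} {p : S} : p ∈ Forms a ↔ ∀ m ∈ p.support, ((m 0 + m 1 : ℕ) : ℤ) = a :=
  Iff.rfl

theorem mem_forms' {a : ℤ} {p : S} :
    p ∈ Forms a ↔ ∀ m, coeff m p ≠ 0 → ((m 0 + m 1 : ℕ) : ℤ) = a := by
  rw [mem_forms]; simp [MvPolynomial.mem_support_iff]

theorem coeff_eq_zero_of_forms {a : ℤ} {p : S} (hp : p ∈ Forms a) {m : Fin 2 →₀ ℕ}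
    (hm : ((m 0 + m 1 : ℕ) : ℤ) ≠ a) : coeff m p = 0 := by
  by_contra h
  exact hm (mem_forms'.1 hp m h)

theorem forms_eq_bot {a : ℤ} (ha : a < 0) : Forms a = ⊥ := by
  rw [eq_bot_iff]
  intro p hp
  rw [Submodule.mem_bot]
  ext m
  rw [coeff_zero]
  apply coeff_eq_zero_of_forms hp
  have : (0 : ℤ) ≤ ((m 0 + m 1 : ℕ) : ℤ) := Int.natCast_nonneg _
  omega

/-- The monomials of degree `n`. -/
noncomputable def mon (n : ℕ) (i : Fin (n + 1)) : Fin 2 →₀ ℕ :=
  Finsupp.equivFunOnFinite.symm ![(i : ℕ), n - i]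

theorem mon_zero (n : ℕ) (i : Fin (n + 1)) : mon n i 0 = i := by simp [mon]
theorem mon_one (n : ℕ) (i : Fin (n + 1)) : mon n i 1 = n - i := by simp [mon]

theorem mon_inj (n : ℕ) : Function.Injective (mon n) := by
  intro i j h
  have := DFunLike.congr_fun h 0
  rw [mon_zero, mon_zero] at this
  exact Fin.ext this

theorem eq_mon {n : ℕ} {m : Fin 2 →₀ ℕ} (hm : m 0 + m 1 = n) :
    ∃ i : Fin (n + 1), mon n i = m := by
  refine ⟨⟨m 0, by omega⟩, ?_⟩
  ext j
  fin_cases j
  · exact mon_zero n _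
  · show mon n _ 1 = m 1
    rw [mon_one]
    simp only
    omega

/-- Forms of degree `n` as coefficient vectors. -/
noncomputable def formsEquiv (n : ℕ) : Forms (n : ℤ) ≃ₗ[ℂ] (Fin (n + 1) → ℂ) where
  toFun p i := coeff (mon n i) p.1
  map_add' p q := by ext i; simp
  map_smul' c p := by ext i; simp
  invFun c := ⟨∑ i, monomial (mon n i) (c i), by
    refine Submodule.sum_mem _ fun i _ => ?_
    rw [mem_forms']
    intro m hm
    rw [coeff_monomial] at hm
    have : mon n i = m := by
      by_contra h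
      exact hm (if_neg h)
    rw [← this, mon_zero, mon_one]
    have := i.2
    push_cast
    omega⟩
  left_inv := by
    rintro ⟨p, hp⟩
    apply Subtype.ext
    ext m
    simp only [coeff_sum, coeff_monomial]
    by_cases h : m 0 + m 1 = n
    · obtain ⟨i, rfl⟩ := eq_mon h
      rw [Finset.sum_eq_single i]
      · rw [if_pos rfl]
      · intro j _ hj
        rw [if_neg (fun h => hj (mon_inj n h))]
      · intro h; exact absurd (Finset.mem_univ _) h
    · rw [coeff_eq_zero_of_forms hp (by exact_mod_cast h)]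
      apply Finset.sum_eq_zero
      intro i _
      rw [if_neg]
      rintro rfl
      apply h
      rw [mon_zero, mon_one]
      have := i.2
      omega
  right_inv := by
    intro c
    ext i
    simp only [coeff_sum, coeff_monomial]
    rw [Finset.sum_eq_single i]
    · rw [if_pos rfl]
    · intro j _ hj
      rw [if_neg (fun h => hj (mon_inj n h))]
    · intro h; exact absurd (Finset.mem_univ _) h

instance finite_forms (a : ℤ) : FiniteDimensional ℂ (Forms a) := by
  rcases lt_or_ge a 0 with h | h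
  · rw [forms_eq_bot h]; infer_instance
  · obtain ⟨n, rfl⟩ := Int.eq_ofNat_of_zero_le h
    exact (formsEquiv n).symm.finiteDimensional

/-- BLOCK H: dimension of the space of binary forms. -/
theorem finrank_forms {a : ℤ} (ha : -1 ≤ a) : (finrank ℂ (Forms a) : ℤ) = a + 1 := by
  rcases lt_or_ge a 0 with h | h
  · rw [forms_eq_bot h, finrank_bot]
    omega
  · obtain ⟨n, rfl⟩ := Int.eq_ofNat_of_zero_le h
    rw [(formsEquiv n).finrank_eq, Module.finrank_fin_fun]
    push_cast
    ring

theorem forms_mul_mem {a b : ℤ} {p q : S} (hp : p ∈ Forms a) (hq : q ∈ Forms b) :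
    p * q ∈ Forms (a + b) := by
  rw [mem_forms'] at *
  intro m hm
  rw [coeff_mul] at hm
  obtain ⟨⟨m1, m2⟩, hmem, hne⟩ := Finset.exists_ne_zero_of_sum_ne_zero hm
  have h := Finset.HasAntidiagonal.mem_antidiagonal.1 hmem
  simp only at h hne
  have h1 := hp m1 (left_ne_zero_of_mul hne)
  have h2 := hq m2 (right_ne_zero_of_mul hne)
  rw [← h, ← h1, ← h2]
  simp only [Finsupp.add_apply]
  push_cast
  ring

theorem X_mem_forms (i : Fin 2) : (X i : S) ∈ Forms 1 := by
  rw [mem_forms']
  intro m hm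
  rw [coeff_X] at hm
  have : Finsupp.single i 1 = m := by
    by_contra h
    simp [h] at hm
  rw [← this]
  fin_cases i <;> simp [Finsupp.single_apply]

theorem C_mem_forms (c : ℂ) : (C c : S) ∈ Forms 0 := by
  rw [mem_forms']
  intro m hm
  rw [coeff_C] at hm
  have : 0 = m := by
    by_contra h
    simp [h] at hm
  rw [← this]
  simp

theorem one_mem_forms : (1 : S) ∈ Forms 0 := by
  have := C_mem_forms 1
  simpa using this

theorem pow_mem_forms {a : ℤ} {p : S} (hp : p ∈ Forms a) (n : ℕ) : p ^ n ∈ Forms (n * a) := by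
  induction n with
  | zero => simpa using one_mem_forms
  | succ n ih =>
    rw [pow_succ]
    have := forms_mul_mem ih hp
    convert this using 2
    push_cast; ring

theorem forms_C_of_zero {p : S} (hp : p ∈ Forms 0) : ∃ c : ℂ, p = C c := by
  refine ⟨coeff 0 p, ?_⟩
  ext m
  rw [coeff_C]
  split_ifs with h
  · rw [h]
  · apply coeff_eq_zero_of_forms hp
    intro h0
    apply h
    have h0' : m 0 + m 1 = 0 := by exact_mod_cast h0
    ext j
    fin_cases j
    · simp; omega
    · simp; omega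

/-- the component of degree `d` -/
noncomputable def comp (d : ℤ) (p : S) : S :=
  ∑ m ∈ p.support.filter (fun m => ((m 0 + m 1 : ℕ) : ℤ) = d), monomial m (coeff m p)

theorem coeff_comp (d : ℤ) (p : S) (m : Fin 2 →₀ ℕ) :
    coeff m (comp d p) = if ((m 0 + m 1 : ℕ) : ℤ) = d then coeff m p else 0 := by
  unfold comp
  rw [coeff_sum]
  simp only [coeff_monomial]
  rw [Finset.sum_ite_eq' (p.support.filter (fun m => ((m 0 + m 1 : ℕ) : ℤ) = d)) m]
  by_cases h : ((m 0 + m 1 : ℕ) : ℤ) = d
  · rw [if_pos h]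
    by_cases h2 : m ∈ p.support
    · rw [if_pos (Finset.mem_filter.2 ⟨h2, h⟩)]
    · rw [if_neg (fun h3 => h2 (Finset.mem_filter.1 h3).1)]
      rw [MvPolynomial.notMem_support_iff] at h2
      exact h2.symm
  · rw [if_neg h, if_neg]
    intro h3
    exact h (Finset.mem_filter.1 h3).2

theorem comp_mem (d : ℤ) (p : S) : comp d p ∈ Forms d := by
  rw [mem_forms']
  intro m hm
  rw [coeff_comp] at hm
  by_contra h
  rw [if_neg h] at hm
  exact hm rfl

theorem comp_add (d : ℤ) (p q : S) : comp d (p + q) = comp d p + comp d q := by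
  ext m
  simp only [coeff_comp, coeff_add]
  split_ifs <;> simp

theorem comp_zero (d : ℤ) : comp d 0 = 0 := by
  ext m
  simp [coeff_comp]

theorem comp_sum {ι : Type*} (d : ℤ) (s : Finset ι) (p : ι → S) :
    comp d (∑ i ∈ s, p i) = ∑ i ∈ s, comp d (p i) := by
  classical
  induction s using Finset.induction_on with
  | empty => simp [comp_zero]
  | insert i s hi ih => rw [Finset.sum_insert hi, comp_add, ih, Finset.sum_insert hi]

theorem comp_mul {d a : ℤ} (g : S) {p : S} (hp : p ∈ Forms a) :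
    comp (d + a) (g * p) = comp d g * p := by
  ext m
  rw [coeff_comp, coeff_mul, coeff_mul]
  by_cases h : ((m 0 + m 1 : ℕ) : ℤ) = d + a
  · rw [if_pos h]
    apply Finset.sum_congr rfl
    rintro ⟨m1, m2⟩ hmem
    have hadd := Finset.HasAntidiagonal.mem_antidiagonal.1 hmem
    simp only at hadd ⊢
    by_cases h2 : ((m2 0 + m2 1 : ℕ) : ℤ) = a
    · rw [coeff_comp, if_pos]
      rw [← hadd] at h
      simp only [Finsupp.add_apply] at h
      push_cast at h h2 ⊢
      linarith
    · rw [coeff_eq_zero_of_forms hp h2, mul_zero, mul_zero]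
  · rw [if_neg h]
    symm
    apply Finset.sum_eq_zero
    rintro ⟨m1, m2⟩ hmem
    have hadd := Finset.HasAntidiagonal.mem_antidiagonal.1 hmem
    simp only at hadd ⊢
    by_cases h2 : ((m2 0 + m2 1 : ℕ) : ℤ) = a
    · rw [coeff_comp, if_neg, zero_mul]
      intro h3
      apply h
      rw [← hadd]
      simp only [Finsupp.add_apply]
      push_cast at h2 h3 ⊢
      linarith
    · rw [coeff_eq_zero_of_forms hp h2, mul_zero]

theorem exists_comp_ne_zero {p : S} (hp : p ≠ 0) : ∃ d : ℕ, comp (d : ℤ) p ≠ 0 := by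
  obtain ⟨m, hm⟩ := MvPolynomial.ne_zero_iff.1 hp
  refine ⟨m 0 + m 1, fun h => hm ?_⟩
  have := congrArg (coeff m) h
  rw [coeff_comp, if_pos rfl, coeff_zero] at this
  exact this

end CohP1
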