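import Pool.Agent.Lib_helper75.Coh.FormsD

/-!
# Block G: Grothendieck splitting
-/

set_option autoImplicit false

namespace CohP1

open Module MvPolynomial

namespace G

variable {n : ℕ}

/-- families of homogeneous vectors of `L`, linearly independent over `S` -/
def Fam (a : Fin n → ℤ) (L : Submodule S (Fin n → S)) (r : ℕ) (b : Fin r → ℤ)
    (φ : Matrix (Fin n) (Fin r) S) : Prop :=
  (∀ i j, φ i j ∈ Forms (a i - b j)) ∧ (∀ g : Fin r → S, φ.mulVec g = 0 → g = 0) ∧
    ∀ j, (fun i => φ i j) ∈ L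

lemma Fam.injective {a : Fin n → ℤ} {L : Submodule S (Fin n → S)} {r : ℕ} {b : Fin r → ℤ}
    {φ : Matrix (Fin n) (Fin r) S} (h : Fam a L r b φ) : Function.Injective φ.mulVec := by
  intro x y hxy
  have : φ.mulVec (x - y) = 0 := by rw [Matrix.mulVec_sub, hxy, sub_self]
  exact sub_eq_zero.1 (h.2.1 _ this)

lemma Fam.le {a : Fin n → ℤ} {L : Submodule S (Fin n → S)} {r : ℕ} {b : Fin r → ℤ}
    {φ : Matrix (Fin n) (Fin r) S} (h : Fam a L r b φ) : r ≤ n := by
  have hli : LinearMap.ker (Matrix.mulVecLin φ) = ⊥ := by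
    rw [LinearMap.ker_eq_bot]
    exact h.injective
  have := LinearMap.finrank_le_finrank_of_injective (f := Matrix.mulVecLin φ)
    (LinearMap.ker_eq_bot.1 hli)
  simpa using this

lemma Fam.bound {a : Fin n → ℤ} {L : Submodule S (Fin n → S)} {r : ℕ} {b : Fin r → ℤ}
    {φ : Matrix (Fin n) (Fin r) S} (h : Fam a L r b φ) (j : Fin r) : b j ≤ ∑ i, |a i| := by
  obtain ⟨i, hi⟩ : ∃ i, φ i j ≠ 0 := by
    by_contra hcon
    push Not at hcon
    have h1 := h.2.1 (Pi.single j 1) (by
      ext1 i
      rw [Matrix.mulVec_single_one]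
      exact hcon i)
    have h2 := congrFun h1 j
    rw [Pi.single_eq_same] at h2
    exact one_ne_zero h2
  have h1 := h.1 i j
  have h2 : 0 ≤ a i - b j := by
    by_contra hlt
    rw [forms_eq_bot (not_le.1 hlt), Submodule.mem_bot] at h1
    exact hi h1
  calc b j ≤ a i := by linarith
    _ ≤ |a i| := le_abs_self _
    _ ≤ ∑ i, |a i| := Finset.single_le_sum (f := fun i => |a i|) (fun i _ => abs_nonneg _)
        (Finset.mem_univ i)

lemma Fam.sum_bound {a : Fin n → ℤ} {L : Submodule S (Fin n → S)} {r : ℕ} {b : Fin r → ℤ}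
    {φ : Matrix (Fin n) (Fin r) S} (h : Fam a L r b φ) : ∑ j, b j ≤ r * ∑ i, |a i| := by
  calc ∑ j, b j ≤ ∑ _j : Fin r, ∑ i, |a i| := Finset.sum_le_sum fun j _ => h.bound j
    _ = _ := by rw [Finset.sum_const, Finset.card_univ, Fintype.card_fin, nsmul_eq_mul]

/-- a linear form with value `1` at `P` -/
lemma exists_one {P : Fin 2 → ℂ} (hP : P ≠ 0) : ∃ m ∈ Forms 1, eval P m = 1 := by
  by_cases h0 : P 0 = 0
  · have h1 : P 1 ≠ 0 := by
      intro h1
      apply hP
      ext j
      fin_cases j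
      · exact h0
      · exact h1
    refine ⟨C (P 1)⁻¹ * X 1, ?_, ?_⟩
    · have := forms_mul_mem (C_mem_forms (P 1)⁻¹) (X_mem_forms 1)
      rwa [zero_add] at this
    · simp [h1]
  · refine ⟨C (P 0)⁻¹ * X 0, ?_, ?_⟩
    · have := forms_mul_mem (C_mem_forms (P 0)⁻¹) (X_mem_forms 0)
      rwa [zero_add] at this
    · simp [h0]

/-- at an optimal family the values at each point are linearly independent -/
lemma ind_at_point {a : Fin n → ℤ} {L : Submodule S (Fin n → S)}
    (hsat : ∀ (g : S) (v : Fin n → S), g ≠ 0 → g • v ∈ L → v ∈ L)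
    {r : ℕ} {b : Fin r → ℤ} {φ : Matrix (Fin n) (Fin r) S} (h : Fam a L r b φ)
    (hopt : ∀ (b' : Fin r → ℤ) (φ' : Matrix (Fin n) (Fin r) S), Fam a L r b' φ' →
      ∑ j, b' j ≤ ∑ j, b j) {P : Fin 2 → ℂ} (hP : P ≠ 0) (l : Fin r → ℂ)
    (hl : ∀ i, ∑ j, l j * eval P (φ i j) = 0) : l = 0 := by
  by_contra hne
  have hne' : ∃ j, l j ≠ 0 := by
    by_contra hcon
    push Not at hcon
    exact hne (funext hcon)
  obtain ⟨j0, hj0⟩ := hne'
  obtain ⟨J, hJ, hJmin⟩ := Finset.exists_min_image (Finset.univ.filter fun j => l j ≠ 0) b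
    ⟨j0, by simp [hj0]⟩
  have hlJ : l J ≠ 0 := (Finset.mem_filter.1 hJ).2
  obtain ⟨m, hm, hm1⟩ := exists_one hP
  set e : Fin r → ℕ := fun j => (b j - b J).toNat with he
  have heJ : e J = 0 := by simp [he]
  set g0 : Fin r → S := fun j => C (l j) * m ^ e j with hg0
  set v : Fin n → S := φ.mulVec g0 with hv
  have hvi : ∀ i, v i = ∑ j, φ i j * g0 j := fun i => rfl
  have hvF : ∀ i, v i ∈ Forms (a i - b J) := by
    intro i
    rw [hvi]
    refine Submodule.sum_mem _ fun j _ => ?_
    by_cases hlj : l j = 0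
    · simp [hg0, hlj]
    · have hbj : b J ≤ b j := hJmin j (by simp [hlj])
      have h1 := forms_mul_mem (h.1 i j) (forms_mul_mem (C_mem_forms (l j)) (pow_mem_forms hm (e j)))
      have h2 : a i - b j + (0 + (e j : ℤ) * 1) = a i - b J := by
        simp only [he]
        rw [Int.toNat_of_nonneg (by linarith)]
        ring
      rw [h2] at h1
      exact h1
  have hvP : ∀ i, eval P (v i) = 0 := by
    intro i
    rw [hvi, map_sum, ← hl i]
    apply Finset.sum_congr rfl
    intro j _
    simp only [hg0, map_mul, map_pow, hm1, one_pow, mul_one, eval_C]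
    ring
  have hw : ∀ i, ∃ q ∈ Forms (a i - b J - 1), v i = lin P * q := fun i =>
    exists_lin_mul (hvF i) hP (hvP i)
  choose w hwF hwv using hw
  have hvw : lin P • w = v := by
    ext1 i
    rw [Pi.smul_apply, smul_eq_mul, hwv i]
  have hvL : v ∈ L := by
    have : v = ∑ j, g0 j • (fun i => φ i j) := by
      ext1 i
      rw [hvi, Finset.sum_apply]
      apply Finset.sum_congr rfl
      intro j _
      rw [Pi.smul_apply, smul_eq_mul, mul_comm]
    rw [this]
    exact Submodule.sum_mem _ fun j _ => L.smul_mem _ (h.2.2 j)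
  have hwL : w ∈ L := hsat _ _ (lin_ne_zero hP) (by rw [hvw]; exact hvL)
  set φ' : Matrix (Fin n) (Fin r) S := φ.updateCol J w with hφ'
  set b' : Fin r → ℤ := Function.update b J (b J + 1) with hb'
  have hfam : Fam a L r b' φ' := by
    refine ⟨?_, ?_, ?_⟩
    · intro i j
      by_cases hj : j = J
      · subst hj
        rw [hφ', hb', Matrix.updateCol_self, Function.update_self]
        have := hwF i
        rwa [sub_sub] at this
      · rw [hφ', hb', Matrix.updateCol_ne hj, Function.update_of_ne hj]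
        exact h.1 i j
    · intro g hg
      have hsplit : ∀ i, φ'.mulVec g i = w i * g J + ∑ j ∈ Finset.univ.erase J, φ i j * g j := by
        intro i
        show ∑ j, φ' i j * g j = _
        rw [← Finset.add_sum_erase _ _ (Finset.mem_univ J)]
        congr 1
        · rw [hφ', Matrix.updateCol_self]
        · apply Finset.sum_congr rfl
          intro j hj
          rw [hφ', Matrix.updateCol_ne (Finset.ne_of_mem_erase hj)]
      have hz : φ.mulVec (fun j => g J * g0 j + if j = J then 0 else lin P * g j) = 0 := by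
        ext1 i
        have h1 := congrFun hg i
        rw [hsplit i, Pi.zero_apply] at h1
        have h2 : v i * g J + lin P * ∑ j ∈ Finset.univ.erase J, φ i j * g j = 0 := by
          rw [hwv i]
          linear_combination (lin P) * h1
        refine Eq.trans ?_ h2
        rw [hvi]
        show ∑ j, φ i j * (g J * g0 j + if j = J then 0 else lin P * g j) = _
        rw [Finset.sum_mul, Finset.mul_sum, ← Finset.add_sum_erase _ _ (Finset.mem_univ J),
          ← Finset.add_sum_erase _ (fun j => φ i j * g0 j * g J) (Finset.mem_univ J), add_assoc,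
          ← Finset.sum_add_distrib]
        congr 1
        · rw [if_pos rfl]; ring
        · apply Finset.sum_congr rfl
          intro j hj
          rw [if_neg (Finset.ne_of_mem_erase hj)]
          ring
      have hcoef := h.2.1 _ hz
      have hgJ : g J = 0 := by
        have := congrFun hcoef J
        simp only [if_pos, add_zero, Pi.zero_apply, hg0, heJ, pow_zero, mul_one] at this
        rcases mul_eq_zero.1 this with h3 | h3
        · exact h3
        · exfalso
          rw [map_eq_zero_iff _ (C_injective _ _)] at h3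
          exact hlJ h3
      ext1 j
      by_cases hj : j = J
      · rw [hj]; exact hgJ
      · have := congrFun hcoef j
        simp only [if_neg hj, hgJ, zero_mul, zero_add, Pi.zero_apply] at this
        rcases mul_eq_zero.1 this with h3 | h3
        · exact absurd h3 (lin_ne_zero hP)
        · exact h3
    · intro j
      by_cases hj : j = J
      · subst hj
        have : (fun i => φ' i j) = w := by
          ext1 i
          rw [hφ', Matrix.updateCol_self]
        rw [this]; exact hwL
      · have : (fun i => φ' i j) = fun i => φ i j := by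
          ext1 i
          rw [hφ', Matrix.updateCol_ne hj]
        rw [this]; exact h.2.2 j
  have hle := hopt b' φ' hfam
  have hsum : ∑ j, b' j = ∑ j, b j + 1 := by
    rw [hb', ← Finset.add_sum_erase _ _ (Finset.mem_univ J), Function.update_self,
      ← Finset.add_sum_erase _ b (Finset.mem_univ J)]
    have : ∑ j ∈ Finset.univ.erase J, Function.update b J (b J + 1) j
        = ∑ j ∈ Finset.univ.erase J, b j := by
      apply Finset.sum_congr rfl
      intro j hj
      rw [Function.update_of_ne (Finset.ne_of_mem_erase hj)]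
    rw [this]; ring
  omega

lemma divide {r : ℕ} {b : Fin r → ℤ} {φ : Matrix (Fin n) (Fin r) S}
    (hind : ∀ P : Fin 2 → ℂ, P ≠ 0 → ∀ l : Fin r → ℂ,
      (∀ i, ∑ j, l j * eval P (φ i j) = 0) → l = 0) (c : ℤ) (v : Fin n → S) (e : ℕ) :
    ∀ g ∈ Forms (e : ℤ), g ≠ 0 → ∀ s : Fin r → S, (∀ j, s j ∈ Forms (e + (b j + c))) →
      g • v = φ.mulVec s →
      ∃ s : Fin r → S, (∀ j, s j ∈ Forms (b j + c)) ∧ v = φ.mulVec s := by
  induction e with
  | zero =>
    intro g hg hg0 s hs hgs
    obtain ⟨κ, rfl⟩ := forms_C_of_zero (by simpa using hg)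
    have hκ : κ ≠ 0 := by
      rintro rfl
      exact hg0 (map_zero _)
    refine ⟨(C κ⁻¹ : S) • s, ?_, ?_⟩
    · intro j
      have := forms_mul_mem (C_mem_forms κ⁻¹) (hs j)
      simpa using this
    · rw [Matrix.mulVec_smul, ← hgs, smul_smul, ← map_mul, inv_mul_cancel₀ hκ, map_one, one_smul]
  | succ e ih =>
    intro g hg hg0 s hs hgs
    obtain ⟨P, hP, hgP⟩ := exists_zero hg
    obtain ⟨g', hg', hgg'⟩ := exists_lin_mul hg hP hgP
    have hsP : (fun j => eval P (s j)) = 0 := by
      apply hind P hP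
      intro i
      have h1 := congrArg (eval P) (congrFun hgs i)
      rw [Pi.smul_apply, smul_eq_mul, map_mul, hgP, zero_mul] at h1
      have h2 : φ.mulVec s i = ∑ j, φ i j * s j := rfl
      rw [h2, map_sum] at h1
      rw [h1]
      apply Finset.sum_congr rfl
      intro j _
      rw [map_mul, mul_comm]
    have hs' : ∀ j, ∃ q ∈ Forms (((e + 1 : ℕ) : ℤ) + (b j + c) - 1), s j = lin P * q := fun j =>
      exists_lin_mul (hs j) hP (congrFun hsP j)
    choose s' hs'F hs's using hs'
    refine ih g' ?_ ?_ s' ?_ ?_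
    · have : ((e + 1 : ℕ) : ℤ) - 1 = e := by push_cast; ring
      rwa [this] at hg'
    · rintro rfl
      exact hg0 (by rw [hgg', mul_zero])
    · intro j
      have : ((e + 1 : ℕ) : ℤ) + (b j + c) - 1 = e + (b j + c) := by push_cast; ring
      have h1 := hs'F j
      rwa [this] at h1
    · have h1 : lin P • (g' • v) = lin P • φ.mulVec s' := by
        rw [smul_smul, ← hgg', hgs, ← Matrix.mulVec_smul]
        congr 1
        ext1 j
        rw [Pi.smul_apply, smul_eq_mul, hs's j]
      ext1 i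
      have h2 := congrFun h1 i
      simp only [Pi.smul_apply, smul_eq_mul] at h2 ⊢
      exact mul_left_cancel₀ (lin_ne_zero hP) h2

/-- a homogeneous vector which is dependent of the columns is a combination of the columns -/
lemma of_dep {a : Fin n → ℤ} {r : ℕ} {b : Fin r → ℤ} {φ : Matrix (Fin n) (Fin r) S}
    (hφF : ∀ i j, φ i j ∈ Forms (a i - b j))
    (hind : ∀ P : Fin 2 → ℂ, P ≠ 0 → ∀ l : Fin r → ℂ,
      (∀ i, ∑ j, l j * eval P (φ i j) = 0) → l = 0) {c : ℤ} {v : Fin n → S}
    (hvF : ∀ i, v i ∈ Forms (a i + c)) {g : S} (hg0 : g ≠ 0) {hk : Fin r → S}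
    (hgk : g • v + φ.mulVec hk = 0) :
    ∃ s : Fin r → S, (∀ j, s j ∈ Forms (b j + c)) ∧ v = φ.mulVec s := by
  obtain ⟨e, he⟩ := exists_comp_ne_zero hg0
  refine divide hind c v e (comp e g) (comp_mem _ _) he
    (fun j => - comp (e + (b j + c)) (hk j)) ?_ ?_
  · intro j
    exact Submodule.neg_mem _ (comp_mem _ _)
  · ext1 i
    have h1 := congrFun hgk i
    have h2 : φ.mulVec hk i = ∑ j, φ i j * hk j := rfl
    rw [Pi.add_apply, Pi.smul_apply, smul_eq_mul, h2, Pi.zero_apply] at h1
    have h3 := congrArg (comp ((e : ℤ) + (a i + c))) h1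
    rw [comp_add, comp_mul g (hvF i), comp_sum, comp_zero] at h3
    have h4 : ∀ j, comp ((e : ℤ) + (a i + c)) (φ i j * hk j)
        = comp (e + (b j + c)) (hk j) * φ i j := by
      intro j
      have : (e : ℤ) + (a i + c) = (e + (b j + c)) + (a i - b j) := by ring
      rw [this, mul_comm (φ i j), comp_mul _ (hφF i j)]
    simp only [h4] at h3
    rw [Pi.smul_apply, smul_eq_mul]
    show comp (↑e) g * v i = ∑ j, φ i j * -comp (e + (b j + c)) (hk j)
    have h5 : ∑ j, φ i j * -comp (e + (b j + c)) (hk j)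
        = - ∑ j, comp (e + (b j + c)) (hk j) * φ i j := by
      rw [← Finset.sum_neg_distrib]
      apply Finset.sum_congr rfl
      intro j _
      ring
    rw [h5]
    linear_combination h3

end G

open G in
/-- The splitting theorem, with pointwise independence. -/
theorem splitting' {n : ℕ} (a : Fin n → ℤ) (L : Submodule S (Fin n → S))
    (hsat : ∀ (g : S) (v : Fin n → S), g ≠ 0 → g • v ∈ L → v ∈ L) :
    ∃ (r : ℕ) (b : Fin r → ℤ) (φ : Matrix (Fin n) (Fin r) S),
      (∀ i j, φ i j ∈ Forms (a i - b j)) ∧ Function.Injective φ.mulVec ∧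
      (∀ j, (fun i => φ i j) ∈ L) ∧
      (∀ P : Fin 2 → ℂ, P ≠ 0 → ∀ l : Fin r → ℂ,
        (∀ i, ∑ j, l j * eval P (φ i j) = 0) → l = 0) ∧
      ∀ (c : ℤ) (v : Fin n → S), (∀ i, v i ∈ Forms (a i + c)) → v ∈ L →
        ∃ s : Fin r → S, (∀ j, s j ∈ Forms (b j + c)) ∧ v = φ.mulVec s := by
  classical
  -- maximal rank
  obtain ⟨r, ⟨b0, φ0, h0⟩, hmax⟩ : ∃ r : ℕ, (∃ b φ, Fam a L r b φ) ∧
      ∀ r', (∃ b φ, Fam a L r' b φ) → r' ≤ r := by
    refine ⟨Nat.findGreatest (fun r => ∃ b φ, Fam a L r b φ) n, ?_, ?_⟩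
    · apply Nat.findGreatest_spec (P := fun r => ∃ b φ, Fam a L r b φ) (m := 0) (Nat.zero_le n)
      refine ⟨fun j => j.elim0, fun _ j => j.elim0, fun _ j => j.elim0, fun g _ => ?_,
        fun j => j.elim0⟩
      exact Subsingleton.elim _ _
    · rintro r' ⟨b, φ, h⟩
      exact Nat.le_findGreatest h.le ⟨b, φ, h⟩
  -- maximal degree
  obtain ⟨s, ⟨b, φ, h, hs⟩, hsmax⟩ := Int.exists_greatest_of_bdd
    (P := fun s : ℤ => ∃ b φ, Fam a L r b φ ∧ s = ∑ j, b j)
    ⟨r * ∑ i, |a i|, by
      rintro z ⟨b, φ, h, rfl⟩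
      exact h.sum_bound⟩ ⟨_, b0, φ0, h0, rfl⟩
  have hopt : ∀ (b' : Fin r → ℤ) (φ' : Matrix (Fin n) (Fin r) S), Fam a L r b' φ' →
      ∑ j, b' j ≤ ∑ j, b j := by
    intro b' φ' h'
    rw [← hs]
    exact hsmax _ ⟨b', φ', h', rfl⟩
  have hind : ∀ P : Fin 2 → ℂ, P ≠ 0 → ∀ l : Fin r → ℂ,
      (∀ i, ∑ j, l j * eval P (φ i j) = 0) → l = 0 := fun P hP l hl =>
    ind_at_point hsat h hopt hP l hl
  refine ⟨r, b, φ, h.1, h.injective, h.2.2, hind, ?_⟩
  intro c v hvF hvL
  -- dependence
  obtain ⟨g, hg0, hk, hgk⟩ : ∃ g : S, g ≠ 0 ∧ ∃ k : Fin r → S, g • v + φ.mulVec k = 0 := by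
    by_contra hcon
    push Not at hcon
    have : Fam a L (r + 1) (Fin.cons (-c) b) (Matrix.of fun i => Fin.cons (v i) (φ i)) := by
      refine ⟨?_, ?_, ?_⟩
      · intro i j
        refine Fin.cases ?_ (fun j => ?_) j
        · simpa using hvF i
        · simpa using h.1 i j
      · intro g hg
        have hz : g 0 • v + φ.mulVec (fun j => g j.succ) = 0 := by
          ext1 i
          have h1 := congrFun hg i
          have h2 : (Matrix.of fun i => (Fin.cons (v i) (φ i) : Fin (r + 1) → S)).mulVec g i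
              = ∑ j : Fin (r + 1), (Fin.cons (v i) (φ i) : Fin (r + 1) → S) j * g j := rfl
          rw [h2, Fin.sum_univ_succ] at h1
          simp only [Fin.cons_zero, Fin.cons_succ, Pi.zero_apply] at h1
          rw [Pi.add_apply, Pi.smul_apply, smul_eq_mul, Pi.zero_apply, ← h1, mul_comm]
          rfl
        have hg00 : g 0 = 0 := by
          by_contra hne
          exact hcon (g 0) hne _ hz
        rw [hg00, zero_smul, zero_add] at hz
        have hrest := h.2.1 _ hz
        ext1 j
        refine Fin.cases hg00 (fun j => congrFun hrest j) j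
      · intro j
        refine Fin.cases ?_ (fun j => ?_) j
        · simpa using hvL
        · simpa using h.2.2 j
    have := hmax (r + 1) ⟨_, _, this⟩
    omega
  exact of_dep h.1 hind hvF hg0 hgk

/-- BLOCK G (Grothendieck splitting): a saturated submodule `L` of `⊕ S(a_i)` has a basis (as far
as homogeneous vectors are concerned) of homogeneous vectors, the columns of `φ`. -/
theorem splitting {n : ℕ} (a : Fin n → ℤ) (L : Submodule S (Fin n → S))
    (hsat : ∀ (g : S) (v : Fin n → S), g ≠ 0 → g • v ∈ L → v ∈ L) :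
    ∃ (r : ℕ) (b : Fin r → ℤ) (φ : Matrix (Fin n) (Fin r) S),
      (∀ i j, φ i j ∈ Forms (a i - b j)) ∧ Function.Injective φ.mulVec ∧
      (∀ j, (fun i => φ i j) ∈ L) ∧
      ∀ (c : ℤ) (v : Fin n → S), (∀ i, v i ∈ Forms (a i + c)) → v ∈ L →
        ∃ s : Fin r → S, (∀ j, s j ∈ Forms (b j + c)) ∧ v = φ.mulVec s := by
  obtain ⟨r, b, φ, h1, h2, h3, -, h4⟩ := splitting' a L hsat
  exact ⟨r, b, φ, h1, h2, h3, h4⟩

end CohP1
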