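import Pool.Agent.Lib_helper75.Coh.T1b

/-!
# Block T1: from stable coherent systems to stable representations
-/

set_option autoImplicit false

namespace CohP1

open Module MvPolynomial

namespace T1

/-- saturation of a submodule -/
def saturation {n : ℕ} (N : Submodule S (Fin n → S)) : Submodule S (Fin n → S) where
  carrier := {v | ∃ g : S, g ≠ 0 ∧ g • v ∈ N}
  zero_mem' := ⟨1, one_ne_zero, by rw [smul_zero]; exact N.zero_mem⟩
  add_mem' := by
    rintro v w ⟨g, hg, hgv⟩ ⟨h, hh, hhw⟩
    refine ⟨g * h, mul_ne_zero hg hh, ?_⟩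
    have : (g * h) • (v + w) = h • (g • v) + g • (h • w) := by
      rw [smul_add, smul_smul, smul_smul, mul_comm h g]
    rw [this]
    exact N.add_mem (N.smul_mem _ hgv) (N.smul_mem _ hhw)
  smul_mem' := by
    rintro c v ⟨g, hg, hgv⟩
    refine ⟨g, hg, ?_⟩
    rw [smul_comm]
    exact N.smul_mem _ hgv

lemma saturation_sat {n : ℕ} (N : Submodule S (Fin n → S)) (g : S) (v : Fin n → S) (hg : g ≠ 0)
    (h : g • v ∈ saturation N) : v ∈ saturation N := by
  obtain ⟨h', hh', h2⟩ := h
  exact ⟨h' * g, mul_ne_zero hh' hg, by rw [← smul_smul]; exact h2⟩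

lemma le_saturation {n : ℕ} (N : Submodule S (Fin n → S)) : N ≤ saturation N := by
  intro v hv
  exact ⟨1, one_ne_zero, by rw [one_smul]; exact hv⟩

/-- multiplication by a variable on sections -/
noncomputable def mulX {n : ℕ} (a : Fin n → ℤ) (i : Fin 2) :
    H0 (fun l => a l - 1) →ₗ[ℂ] H0 a where
  toFun s := ⟨(X i : S) • s.1, mem_H0.2 fun l => by
    have := forms_mul_mem (X_mem_forms i) (mem_H0.1 s.2 l)
    have e : (1 : ℤ) + (a l - 1) = a l := by ring
    rw [e] at this
    exact this⟩
  map_add' s t := by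
    apply Subtype.ext
    exact smul_add _ _ _
  map_smul' c s := by
    apply Subtype.ext
    exact smul_comm _ _ _

/-- the representation attached to a coherent system -/
noncomputable def repOf {n : ℕ} (E : CoherentSystem n) : QRep where
  V := E.V
  W := H0 E.a
  U := H0 (fun l => E.a l - 1)
  fV := E.finite_V
  f := Submodule.inclusion E.le
  x := mulX E.a 0
  y := mulX E.a 1

lemma ty_repOf {n : ℕ} (E : CoherentSystem n) (ha : ∀ i, 0 ≤ E.a i) :
    (repOf E).ty = ((E.dimV : ℤ), E.degree + n, E.degree) := by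
  show ((finrank ℂ E.V : ℤ), (finrank ℂ (H0 E.a) : ℤ), (finrank ℂ (H0 (fun l => E.a l - 1)) : ℤ))
    = _
  rw [finrank_H0 (fun i => by linarith [ha i]), finrank_H0 (fun i => by linarith [ha i])]
  simp only [Prod.mk.injEq]
  refine ⟨rfl, ?_, ?_⟩
  · rw [Finset.sum_add_distrib]
    simp [CoherentSystem.degree]
  · simp [CoherentSystem.degree]

/-- the subsystem generated by a subrepresentation -/
theorem sub_of_rep {n : ℕ} (E : CoherentSystem n) (A : QRep) (i : Hom A (repOf E))
    (hi : i.Inj) (hA : A.ty ≠ 0) :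
    ∃ (r : ℕ) (E' : CoherentSystem r) (φ : Matrix (Fin n) (Fin r) S), 0 < r ∧ r ≤ n ∧
      IsSubsystem E E' φ ∧ E'.dimV = finrank ℂ A.V ∧ (finrank ℂ A.U : ℤ) ≤ E'.degree ∧
      r + finrank ℂ A.U ≤ finrank ℂ A.W := by
  classical
  set jv : A.V →ₗ[ℂ] (Fin n → S) := E.V.subtype ∘ₗ i.v with hjv
  set jw : A.W →ₗ[ℂ] (Fin n → S) := (H0 E.a).subtype ∘ₗ i.w with hjw
  set ju : A.U →ₗ[ℂ] (Fin n → S) := (H0 (fun l => E.a l - 1)).subtype ∘ₗ i.u with hju
  have hjvi : Function.Injective jv := Subtype.val_injective.comp hi.1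
  have hjwi : Function.Injective jw := Subtype.val_injective.comp hi.2.1
  have hjui : Function.Injective ju := Subtype.val_injective.comp hi.2.2
  have hjwF : ∀ w l, jw w l ∈ Forms (E.a l) := fun w l => mem_H0.1 (i.w w).2 l
  have hjuF : ∀ u l, ju u l ∈ Forms (E.a l - 1) := fun u l => mem_H0.1 (i.u u).2 l
  have hf : ∀ v, jw (A.f v) = jv v := fun v => congrArg Subtype.val (i.hf' v)
  have hx : ∀ u, jw (A.x u) = (X 0 : S) • ju u := fun u => congrArg Subtype.val (i.hx' u)
  have hy : ∀ u, jw (A.y u) = (X 1 : S) • ju u := fun u => congrArg Subtype.val (i.hy' u)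
  have hAfi : Function.Injective A.f := by
    intro s t hst
    apply hjvi
    rw [← hf, ← hf, hst]
  have hAxi : Function.Injective A.x := by
    intro s t hst
    apply hjui
    have : (X 0 : S) • ju s = (X 0 : S) • ju t := by rw [← hx, ← hx, hst]
    ext1 l
    have h2 := congrFun this l
    simp only [Pi.smul_apply, smul_eq_mul] at h2
    exact mul_left_cancel₀ (X_ne_zero 0) h2
  -- W' is nonzero
  have hW : 0 < finrank ℂ A.W := by
    rw [Nat.pos_iff_ne_zero]
    intro h0
    apply hA
    have h1 := LinearMap.finrank_le_finrank_of_injective hAfi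
    have h2 := LinearMap.finrank_le_finrank_of_injective hAxi
    rw [QRep.ty, h0]
    have h3 : finrank ℂ A.V = 0 := by omega
    have h4 : finrank ℂ A.U = 0 := by omega
    rw [h3, h4]
    rfl
  -- splitting
  set N0 : Submodule S (Fin n → S) := Submodule.span S (Set.range jw) with hN0
  obtain ⟨r, b, φ, hφF, hφi, hφL, hspl⟩ := splitting E.a (saturation N0) (saturation_sat N0)
  have hsplW : ∀ w, ∃ s : Fin r → S, s ∈ H0 b ∧ jw w = φ.mulVec s := by
    intro w
    obtain ⟨s, hs, hse⟩ := hspl 0 (jw w) (fun l => by rw [add_zero]; exact hjwF w l)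
      (le_saturation N0 (Submodule.subset_span ⟨w, rfl⟩))
    exact ⟨s, mem_H0.2 fun j => by have := hs j; rwa [add_zero] at this, hse⟩
  have hsplU : ∀ u, ∃ s : Fin r → S, s ∈ H0 (fun j => b j - 1) ∧ ju u = φ.mulVec s := by
    intro u
    obtain ⟨s, hs, hse⟩ := hspl (-1) (ju u)
      (fun l => by rw [← sub_eq_add_neg]; exact hjuF u l)
      ⟨X 0, X_ne_zero 0, by rw [← hx]; exact Submodule.subset_span ⟨_, rfl⟩⟩
    exact ⟨s, mem_H0.2 fun j => by have := hs j; rwa [← sub_eq_add_neg] at this, hse⟩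
  -- b is nonnegative
  have hb : ∀ j, 0 ≤ b j := by
    intro J
    by_contra hJ
    have hJ' : b J < 0 := not_le.1 hJ
    have hle : N0 ≤ (LinearMap.ker (LinearMap.proj J : (Fin r → S) →ₗ[S] S)).map φ.mulVecLin := by
      rw [hN0, Submodule.span_le]
      rintro _ ⟨w, rfl⟩
      obtain ⟨s, hs, hse⟩ := hsplW w
      refine ⟨s, ?_, hse.symm⟩
      have := mem_H0.1 hs J
      rw [forms_eq_bot hJ', Submodule.mem_bot] at this
      exact this
    obtain ⟨g, hg, hgφ⟩ := hφL J
    obtain ⟨s, hs, hse⟩ := hle hgφ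
    have h1 : φ.mulVec s = φ.mulVec (g • Pi.single J (1 : S)) := by
      have : φ.mulVec (g • Pi.single J (1 : S)) = g • fun i => φ i J := by
        rw [Matrix.mulVec_smul]
        congr 1
        ext1 l
        rw [Matrix.mulVec_single_one]
        rfl
      rw [this]
      exact hse
    have h2 := hφi h1
    have h3 := congrFun h2 J
    have h4 : s J = 0 := hs
    rw [h4, Pi.smul_apply, Pi.single_eq_same, smul_eq_mul, mul_one] at h3
    exact hg h3.symm
  have hr : 0 < r := by
    rw [Nat.pos_iff_ne_zero]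
    rintro rfl
    haveI : Nontrivial A.W := Module.nontrivial_of_finrank_pos (R := ℂ) hW
    obtain ⟨w, hw⟩ := exists_ne (0 : A.W)
    obtain ⟨s, -, hse⟩ := hsplW w
    apply hw
    apply hjwi
    rw [hse, map_zero]
    ext1 l
    show ∑ j : Fin 0, φ l j * s j = 0
    simp
  have hrn : r ≤ n := by
    have := LinearMap.finrank_le_finrank_of_injective (f := φ.mulVecLin) hφi
    simpa using this
  -- the map φ over ℂ
  set Φ : (Fin r → S) →ₗ[ℂ] (Fin n → S) := φ.mulVecLin.restrictScalars ℂ with hΦ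
  have hΦi : Function.Injective Φ := hφi
  set V'' : Submodule ℂ (Fin r → S) := (LinearMap.range jv).comap Φ ⊓ H0 b with hV''
  have hmapV : V''.map Φ = LinearMap.range jv := by
    apply le_antisymm
    · rintro _ ⟨s, ⟨hs, -⟩, rfl⟩
      exact hs
    · rintro _ ⟨v, rfl⟩
      obtain ⟨s, hs, hse⟩ := hsplW (A.f v)
      refine ⟨s, ⟨?_, hs⟩, ?_⟩
      · show Φ s ∈ LinearMap.range jv
        refine ⟨v, ?_⟩
        rw [← hf, hse]
        rfl
      · rw [← hf, hse]
        rfl
  have hdimV : finrank ℂ V'' = finrank ℂ A.V := by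
    rw [(Submodule.equivMapOfInjective Φ hΦi V'').finrank_eq, hmapV]
    exact LinearMap.finrank_range_of_inj hjvi
  refine ⟨r, ⟨b, V'', inf_le_right⟩, φ, hr, hrn, ⟨hφF, hφi, ?_⟩, hdimV, ?_, ?_⟩
  · rintro s ⟨hs, -⟩
    obtain ⟨v, hv⟩ := hs
    have : φ.mulVec s = jv v := hv.symm
    rw [this]
    exact (i.v v).2
  · -- dimension of U
    have h1 : LinearMap.range ju ≤ (H0 (fun j => b j - 1)).map Φ := by
      rintro _ ⟨u, rfl⟩
      obtain ⟨s, hs, hse⟩ := hsplU u
      exact ⟨s, hs, hse.symm⟩
    have h2 := Submodule.finrank_mono h1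
    have h3 := Submodule.finrank_map_le Φ (H0 (fun j => b j - 1))
    have h4 : (finrank ℂ (H0 (fun j => b j - 1)) : ℤ) = ∑ j, b j := by
      rw [finrank_H0 (fun j => by linarith [hb j])]
      exact Finset.sum_congr rfl fun j _ => by ring
    rw [LinearMap.finrank_range_of_inj hjui] at h2
    show (finrank ℂ A.U : ℤ) ≤ ∑ j, b j
    rw [← h4]
    exact_mod_cast h2.trans h3
  · -- rank inequality
    set bW := Module.finBasis ℂ A.W with hbW
    set bU := Module.finBasis ℂ A.U with hbU
    set P : Matrix (Fin n) (Fin (finrank ℂ A.W)) S := Matrix.of fun l t => jw (bW t) l with hP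
    set X' := LinearMap.toMatrix bU bW A.x with hX'
    set Y' := LinearMap.toMatrix bU bW A.y with hY'
    obtain ⟨z, hz⟩ := A.x.exists_leftInverse_of_injective (LinearMap.ker_eq_bot.2 hAxi)
    set Z := LinearMap.toMatrix bW bU z with hZ
    have hZX : Z * X' = 1 := by
      rw [hZ, hX', ← LinearMap.toMatrix_comp bU bW bU, hz, LinearMap.toMatrix_id]
    set N : Matrix (Fin (finrank ℂ A.W)) (Fin (finrank ℂ A.U)) S :=
      Matrix.of fun l t => X 1 * C (X' l t) - X 0 * C (Y' l t) with hN
    have hNi : Function.Injective N.mulVec := by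
      intro g h hgh
      have : N.mulVec (g - h) = 0 := by rw [Matrix.mulVec_sub, hgh, sub_self]
      exact sub_eq_zero.1 (pencil_inj X' Y' Z hZX N (fun _ _ => rfl) _ this)
    -- coordinates
    have hcoord : ∀ (T : A.U →ₗ[ℂ] A.W) (t : Fin (finrank ℂ A.U)) (l : Fin n),
        ∑ m, P l m * C (LinearMap.toMatrix bU bW T m t) = jw (T (bU t)) l := by
      intro T t l
      have h1 : T (bU t) = ∑ m, (LinearMap.toMatrix bU bW T m t) • bW m := by
        have := bW.sum_repr (T (bU t))
        rw [← this]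
        apply Finset.sum_congr rfl
        intro m _
        rw [LinearMap.toMatrix_apply]
      rw [h1, map_sum, Finset.sum_apply]
      apply Finset.sum_congr rfl
      intro m _
      rw [map_smul, Pi.smul_apply, MvPolynomial.smul_eq_C_mul, mul_comm]
      rfl
    have hPN : ∀ g, P.mulVec (N.mulVec g) = 0 := by
      intro g
      ext1 l
      show ∑ m, P l m * (∑ t, N m t * g t) = 0
      simp only [Finset.mul_sum]
      rw [Finset.sum_comm]
      apply Finset.sum_eq_zero
      intro t _
      have h1 := hcoord A.x t l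
      have h2 := hcoord A.y t l
      rw [hx, Pi.smul_apply, smul_eq_mul] at h1
      rw [hy, Pi.smul_apply, smul_eq_mul] at h2
      have h3 : ∑ m, P l m * (N m t * g t)
          = (X 1 * ∑ m, P l m * C (X' m t) - X 0 * ∑ m, P l m * C (Y' m t)) * g t := by
        rw [Finset.mul_sum, Finset.mul_sum, ← Finset.sum_sub_distrib, Finset.sum_mul]
        apply Finset.sum_congr rfl
        intro m _
        show P l m * ((X 1 * C (X' m t) - X 0 * C (Y' m t)) * g t) = _
        ring
      rw [h3, h1, h2]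
      ring
    refine rank_ineq P N hPN hNi φ hφi ?_
    intro j
    obtain ⟨g, hg, hgφ⟩ := hφL j
    have hle : N0 ≤ LinearMap.range P.mulVecLin := by
      rw [hN0, Submodule.span_le]
      rintro _ ⟨w, rfl⟩
      refine ⟨fun m => C (bW.repr w m), ?_⟩
      have h1 := bW.sum_repr w
      ext1 l
      show ∑ m, P l m * C (bW.repr w m) = jw w l
      conv_rhs => rw [← h1]
      rw [map_sum, Finset.sum_apply]
      apply Finset.sum_congr rfl
      intro m _
      rw [map_smul, Pi.smul_apply, MvPolynomial.smul_eq_C_mul, mul_comm]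
      rfl
    obtain ⟨h, hh⟩ := hle hgφ
    exact ⟨g, hg, h, hh.symm⟩

end T1

open T1 in
/-- BLOCK T1. -/
theorem exists_rep_of_system {n k : ℕ} (hn : 1 ≤ n) (hk : 1 ≤ k) {α : ℝ} (hα : 0 < α)
    (E : CoherentSystem n) (hE : E.Stable α) (hV : E.dimV = k) :
    ∃ M : QRep, M.ty = ((k : ℤ), E.degree + n, E.degree) ∧ Stable α M := by
  have ha := stable_nonneg hα E hE (by omega)
  have hty := ty_repOf E ha
  rw [hV] at hty
  refine ⟨repOf E, hty, ?_, ?_⟩
  · rw [hty]
    intro h
    have := congrArg Prod.fst h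
    simp only [Prod.fst_zero] at this
    omega
  · intro A i hi hA0 hAne
    obtain ⟨r, E', φ, hr, hrn, hsub, hdim, hdeg, hrank⟩ := sub_of_rep E A i hi hA0
    have hst := hE r E' φ hr hsub
    rw [hty] at hAne ⊢
    have hdeg0 : 0 ≤ E.degree := Finset.sum_nonneg fun l _ => ha l
    -- numbers
    have hcr : cr α A.ty ((k : ℤ), E.degree + n, E.degree)
        = ((finrank ℂ A.U : ℝ) + α * finrank ℂ A.V) * n
          - ((E.degree : ℝ) + α * k) * ((finrank ℂ A.W : ℝ) - finrank ℂ A.U) := by
      simp only [cr, lam, rk, QRep.ty]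
      push_cast
      ring
    rw [hcr]
    have hn' : (0 : ℝ) < n := by exact_mod_cast hn
    have hr' : (0 : ℝ) < r := by exact_mod_cast hr
    have hk' : (0 : ℝ) < k := by exact_mod_cast hk
    have hd' : (0 : ℝ) ≤ E.degree := by exact_mod_cast hdeg0
    have hlam : 0 < (E.degree : ℝ) + α * k := by positivity
    have hdeg' : (finrank ℂ A.U : ℝ) ≤ E'.degree := by exact_mod_cast hdeg
    have hrank' : (r : ℝ) + finrank ℂ A.U ≤ finrank ℂ A.W := by exact_mod_cast hrank
    by_cases hcase : (r, E'.degree, E'.dimV) = (n, E.degree, E.dimV)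
    · simp only [Prod.mk.injEq] at hcase
      obtain ⟨h1, h2, h3⟩ := hcase
      have h4 : finrank ℂ A.V = k := by rw [← hdim, h3, hV]
      rw [h4]
      by_contra hcon
      push Not at hcon
      apply hAne
      have h5 : (finrank ℂ A.U : ℝ) ≤ E.degree := by rw [← h2]; exact hdeg'
      rw [h1] at hrank'
      -- equality
      have h6 : (finrank ℂ A.U : ℝ) = E.degree := by nlinarith
      have h7 : (finrank ℂ A.W : ℝ) = finrank ℂ A.U + n := by nlinarith
      rw [QRep.ty, h4]
      have h8 : (finrank ℂ A.U : ℤ) = E.degree := by exact_mod_cast h6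
      have h9 : (finrank ℂ A.W : ℤ) = finrank ℂ A.U + n := by exact_mod_cast h7
      rw [h9, h8]
    · have hs := hst hcase
      rw [hV, hdim] at hs
      unfold slope at hs
      have h1 : ((E'.degree : ℝ) + α * finrank ℂ A.V) * n < ((E.degree : ℝ) + α * k) * r := by
        have e1 : (E'.degree : ℝ) / r + α * ((finrank ℂ A.V : ℝ) / r)
            = ((E'.degree : ℝ) + α * finrank ℂ A.V) / r := by ring
        have e2 : (E.degree : ℝ) / n + α * ((k : ℝ) / n) = ((E.degree : ℝ) + α * k) / n := by ring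
        rw [e1, e2, div_lt_div_iff₀ hr' hn'] at hs
        exact hs
      nlinarith

end CohP1
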