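import Pool.Agent.Lib_helper75.Coh.G
import Pool.Agent.Lib_helper87.Coh.Defs

/-!
# Block T1, preliminaries
-/

set_option autoImplicit false

namespace CohP1

open Module MvPolynomial

namespace T1

/-- rank inequality -/
lemma rank_ineq {n w u r : ℕ} (P : Matrix (Fin n) (Fin w) S) (N : Matrix (Fin w) (Fin u) S)
    (hPN : ∀ g, P.mulVec (N.mulVec g) = 0) (hN : Function.Injective N.mulVec)
    (φ : Matrix (Fin n) (Fin r) S) (hφ : Function.Injective φ.mulVec)
    (hg : ∀ j, ∃ g : S, g ≠ 0 ∧ ∃ h : Fin w → S, g • (fun i => φ i j) = P.mulVec h) :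
    r + u ≤ w := by
  have h1 := Submodule.finrank_quotient_add_finrank (LinearMap.ker P.mulVecLin)
  rw [Module.finrank_fin_fun] at h1
  have h2 : finrank S ((Fin w → S) ⧸ LinearMap.ker P.mulVecLin)
      = finrank S (LinearMap.range P.mulVecLin) := P.mulVecLin.quotKerEquivRange.finrank_eq
  have h3 : u ≤ finrank S (LinearMap.ker P.mulVecLin) := by
    have hmem : ∀ g, N.mulVecLin g ∈ LinearMap.ker P.mulVecLin := by
      intro g
      rw [LinearMap.mem_ker]
      exact hPN g
    have := LinearMap.finrank_le_finrank_of_injective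
      (f := N.mulVecLin.codRestrict (LinearMap.ker P.mulVecLin) hmem)
      (by
        intro x y hxy
        exact hN (congrArg Subtype.val hxy))
    rwa [Module.finrank_fin_fun] at this
  have h4 : r ≤ finrank S (LinearMap.range P.mulVecLin) := by
    choose g hg0 h hh using hg
    set D : (Fin r → S) →ₗ[S] (Fin n → S) :=
      φ.mulVecLin ∘ₗ (LinearMap.pi fun j => (g j) • LinearMap.proj j) with hD
    have hDe : ∀ e : Fin r → S, D e = φ.mulVec (fun j => g j * e j) := fun e => rfl
    have hmem : ∀ e, D e ∈ LinearMap.range P.mulVecLin := by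
      intro e
      refine ⟨∑ j, e j • h j, ?_⟩
      rw [map_sum, hDe]
      ext1 i
      rw [Finset.sum_apply]
      show _ = ∑ j, φ i j * (g j * e j)
      apply Finset.sum_congr rfl
      intro j _
      have := congrFun (hh j) i
      rw [Pi.smul_apply, smul_eq_mul] at this
      rw [map_smul, Pi.smul_apply, smul_eq_mul, Matrix.mulVecLin_apply, ← this]
      ring
    have := LinearMap.finrank_le_finrank_of_injective
      (f := D.codRestrict (LinearMap.range P.mulVecLin) hmem)
      (by
        intro x y hxy
        have h5 : D x = D y := congrArg Subtype.val hxy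
        rw [hDe, hDe] at h5
        have h6 := hφ h5
        ext1 j
        exact mul_left_cancel₀ (hg0 j) (congrFun h6 j))
    rwa [Module.finrank_fin_fun] at this
  omega

/-- the pencil `y X - x Y` is injective if `X` has a left inverse -/
lemma pencil_inj {w u : ℕ} (X' Y' : Matrix (Fin w) (Fin u) ℂ) (Z : Matrix (Fin u) (Fin w) ℂ)
    (hZ : Z * X' = 1) (N : Matrix (Fin w) (Fin u) S)
    (hN : ∀ i j, N i j = X 1 * C (X' i j) - X 0 * C (Y' i j)) (g : Fin u → S)
    (hg : N.mulVec g = 0) : g = 0 := by
  set M : Matrix (Fin u) (Fin u) S := Matrix.of fun i j => ∑ l, C (Z i l) * N l j with hM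
  have hMg : M.mulVec g = 0 := by
    ext1 i
    show ∑ j, (∑ l, C (Z i l) * N l j) * g j = 0
    have h1 : ∀ l, ∑ j, N l j * g j = 0 := fun l => congrFun hg l
    simp only [Finset.sum_mul]
    rw [Finset.sum_comm]
    apply Finset.sum_eq_zero
    intro l _
    have : ∑ j, C (Z i l) * N l j * g j = C (Z i l) * ∑ j, N l j * g j := by
      rw [Finset.mul_sum]
      apply Finset.sum_congr rfl
      intro j _
      ring
    rw [this, h1, mul_zero]
  have hdet : M.det ≠ 0 := by
    intro h0
    have h1 := congrArg (eval ![0, 1]) h0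
    rw [RingHom.map_det, map_zero] at h1
    have h2 : (eval ![0, 1]).mapMatrix M = (1 : Matrix (Fin u) (Fin u) ℂ) := by
      rw [← hZ]
      ext i j
      rw [RingHom.mapMatrix_apply, Matrix.map_apply]
      show eval ![0, 1] (∑ l, C (Z i l) * N l j) = ∑ l, Z i l * X' l j
      rw [map_sum]
      apply Finset.sum_congr rfl
      intro l _
      rw [hN]
      simp
    rw [h2, Matrix.det_one] at h1
    exact one_ne_zero h1
  exact Matrix.eq_zero_of_mulVec_eq_zero hdet hMg

end T1

end CohP1
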