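import Pool.Agent.Lib_helper75.Coh.T1a

/-!
# Block T1: sections, nonnegativity of the summands
-/

set_option autoImplicit false

namespace CohP1

open Module MvPolynomial

theorem mem_H0 {n : ℕ} {a : Fin n → ℤ} {s : Fin n → S} : s ∈ H0 a ↔ ∀ i, s i ∈ Forms (a i) := by
  constructor
  · intro h i
    exact h i (Set.mem_univ i)
  · intro h i _
    exact h i

/-- sections as a product -/
noncomputable def H0Equiv {n : ℕ} (a : Fin n → ℤ) : H0 a ≃ₗ[ℂ] (∀ i, Forms (a i)) where
  toFun s i := ⟨s.1 i, mem_H0.1 s.2 i⟩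
  invFun s := ⟨fun i => (s i).1, mem_H0.2 fun i => (s i).2⟩
  map_add' _ _ := rfl
  map_smul' _ _ := rfl
  left_inv _ := rfl
  right_inv _ := rfl

instance finite_H0 {n : ℕ} (a : Fin n → ℤ) : FiniteDimensional ℂ (H0 a) :=
  (H0Equiv a).symm.finiteDimensional

theorem finrank_H0 {n : ℕ} {a : Fin n → ℤ} (ha : ∀ i, -1 ≤ a i) :
    (finrank ℂ (H0 a) : ℤ) = ∑ i, (a i + 1) := by
  rw [(H0Equiv a).finrank_eq, Module.finrank_pi_fintype]
  push_cast
  exact Finset.sum_congr rfl fun i _ => finrank_forms (ha i)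

theorem CoherentSystem.finite_V {n : ℕ} (E : CoherentSystem n) : FiniteDimensional ℂ E.V :=
  Submodule.finiteDimensional_of_le E.le

namespace T1

/-- stable systems have nonnegative summands -/
theorem stable_nonneg {n : ℕ} {α : ℝ} (hα : 0 < α) (E : CoherentSystem n) (hE : E.Stable α)
    (hk : 1 ≤ E.dimV) : ∀ i, 0 ≤ E.a i := by
  classical
  by_contra hcon
  push Not at hcon
  obtain ⟨i0, hi0⟩ := hcon
  set I : Finset (Fin n) := Finset.univ.filter fun i => 0 ≤ E.a i with hI
  set e' : Fin I.card → Fin n := fun j => (I.equivFin.symm j).1 with he'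
  have he'I : ∀ j, 0 ≤ E.a (e' j) := by
    intro j
    have := (I.equivFin.symm j).2
    exact (Finset.mem_filter.1 this).2
  have he'inj : Function.Injective e' := by
    intro i j h
    exact I.equivFin.symm.injective (Subtype.ext h)
  have he'surj : ∀ i, 0 ≤ E.a i → ∃ j, e' j = i := by
    intro i hi
    refine ⟨I.equivFin ⟨i, Finset.mem_filter.2 ⟨Finset.mem_univ _, hi⟩⟩, ?_⟩
    simp only [he', Equiv.symm_apply_apply]
  set ρ : (Fin n → S) →ₗ[ℂ] (Fin I.card → S) := LinearMap.funLeft ℂ S e' with hρ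
  set φ : Matrix (Fin n) (Fin I.card) S := Matrix.of fun i j => if i = e' j then 1 else 0 with hφ
  have hφ1 : ∀ (s : Fin I.card → S) (j : Fin I.card), φ.mulVec s (e' j) = s j := by
    intro s j
    show ∑ l, (if e' j = e' l then (1 : S) else 0) * s l = s j
    rw [Finset.sum_eq_single j]
    · rw [if_pos rfl, one_mul]
    · intro l _ hl
      rw [if_neg (fun h => hl (he'inj h).symm), zero_mul]
    · intro h; exact absurd (Finset.mem_univ _) h
  have hφ2 : ∀ t ∈ H0 E.a, φ.mulVec (ρ t) = t := by
    intro t ht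
    ext1 i
    by_cases hi : 0 ≤ E.a i
    · obtain ⟨j, rfl⟩ := he'surj i hi
      rw [hφ1]
      rfl
    · have h1 : t i = 0 := by
        have := mem_H0.1 ht i
        rwa [forms_eq_bot (not_le.1 hi), Submodule.mem_bot] at this
      rw [h1]
      show ∑ l, (if i = e' l then (1 : S) else 0) * ρ t l = 0
      apply Finset.sum_eq_zero
      intro l _
      rw [if_neg, zero_mul]
      rintro rfl
      exact hi (he'I l)
  set E' : CoherentSystem I.card :=
    { a := fun j => E.a (e' j)
      V := E.V.map ρ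
      le := by
        rintro _ ⟨t, ht, rfl⟩
        rw [mem_H0]
        intro j
        exact mem_H0.1 (E.le ht) (e' j) } with hE'
  have hdim : E'.dimV = E.dimV := by
    show finrank ℂ (E.V.map ρ) = finrank ℂ E.V
    rw [← LinearMap.range_domRestrict]
    apply LinearMap.finrank_range_of_inj
    intro s t hst
    apply Subtype.ext
    have h1 : ρ s.1 = ρ t.1 := hst
    rw [← hφ2 s.1 (E.le s.2), ← hφ2 t.1 (E.le t.2), h1]
  have hsub : IsSubsystem E E' φ := by
    refine ⟨?_, ?_, ?_⟩
    · intro i j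
      show (if i = e' j then (1 : S) else 0) ∈ Forms (E.a i - E.a (e' j))
      split_ifs with h
      · rw [h, sub_self]; exact one_mem_forms
      · exact Submodule.zero_mem _
    · intro s t hst
      ext1 j
      rw [← hφ1 s j, ← hφ1 t j, hst]
    · rintro _ ⟨t, ht, rfl⟩
      rw [hφ2 t (E.le ht)]
      exact ht
  have hlt : I.card < n := by
    have h1 : I.card < (Finset.univ : Finset (Fin n)).card := by
      apply Finset.card_lt_card
      rw [Finset.ssubset_univ_iff]
      intro h
      have : i0 ∈ I := by rw [h]; exact Finset.mem_univ _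
      exact absurd (Finset.mem_filter.1 this).2 (not_le.2 hi0)
    simpa using h1
  have hpos : 0 < I.card := by
    rw [Finset.card_pos]
    have hV : E.V ≠ ⊥ := by
      intro h
      have : E.dimV = 0 := by
        show finrank ℂ E.V = 0
        rw [h, finrank_bot]
      omega
    obtain ⟨t, ht, ht0⟩ := Submodule.exists_mem_ne_zero_of_ne_bot hV
    obtain ⟨i, hi⟩ : ∃ i, t i ≠ 0 := by
      by_contra hcon
      push Not at hcon
      exact ht0 (funext hcon)
    refine ⟨i, Finset.mem_filter.2 ⟨Finset.mem_univ _, ?_⟩⟩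
    by_contra h
    have := mem_H0.1 (E.le ht) i
    rw [forms_eq_bot (not_le.1 h), Submodule.mem_bot] at this
    exact hi this
  have hs := hE I.card E' φ hpos hsub (by
    intro h
    have := congrArg Prod.fst h
    simp only at this
    omega)
  have hdeg : E'.degree = ∑ i ∈ I, E.a i := by
    show ∑ j, E.a (e' j) = _
    rw [← Finset.sum_coe_sort I]
    exact Fintype.sum_equiv I.equivFin.symm _ _ (fun j => rfl)
  have hdeg0 : 0 ≤ E'.degree := by
    show 0 ≤ ∑ j, E.a (e' j)
    exact Finset.sum_nonneg fun j _ => he'I j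
  have hdegle : E.degree ≤ E'.degree := by
    rw [hdeg]
    show ∑ i, E.a i ≤ _
    rw [← Finset.sum_filter_add_sum_filter_not Finset.univ (fun i => 0 ≤ E.a i)]
    have : ∑ i ∈ Finset.univ.filter (fun i => ¬ 0 ≤ E.a i), E.a i ≤ 0 := by
      apply Finset.sum_nonpos
      intro i hi
      exact (not_le.1 (Finset.mem_filter.1 hi).2).le
    linarith
  rw [hdim] at hs
  unfold slope at hs
  have hr : (0 : ℝ) < I.card := by exact_mod_cast hpos
  have hn : (0 : ℝ) < n := by
    have : 0 < n := by omega
    exact_mod_cast this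
  have hrn : (I.card : ℝ) ≤ n := by exact_mod_cast hlt.le
  have h1 : (E.degree : ℝ) / n ≤ (E'.degree : ℝ) / I.card := by
    have hd1 : (E.degree : ℝ) ≤ E'.degree := by exact_mod_cast hdegle
    have hd2 : (0 : ℝ) ≤ E'.degree := by exact_mod_cast hdeg0
    calc (E.degree : ℝ) / n ≤ (E'.degree : ℝ) / n := by gcongr
      _ ≤ (E'.degree : ℝ) / I.card := by gcongr
  have h2 : α * ((E.dimV : ℝ) / n) ≤ α * ((E.dimV : ℝ) / I.card) := by gcongr
  linarith

end T1

end CohP1
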