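import Pool.Agent.Lib_helper75.Coh.T2a

/-!
# Block T2: from stable representations to stable coherent systems
-/

set_option autoImplicit false

namespace CohP1

open Module MvPolynomial

namespace T2

theorem finrank_forms' (a : ℤ) : (finrank ℂ (Forms a) : ℤ) = max (a + 1) 0 := by
  rcases lt_or_ge a 0 with h | h
  · rw [forms_eq_bot h, finrank_bot, max_eq_right (by omega)]
    rfl
  · rw [finrank_forms (by omega), max_eq_left (by omega)]

theorem finrank_H0' {n : ℕ} (a : Fin n → ℤ) :
    (finrank ℂ (H0 a) : ℤ) = ∑ i, max (a i + 1) 0 := by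
  rw [(H0Equiv a).finrank_eq, Module.finrank_pi_fintype]
  push_cast
  exact Finset.sum_congr rfl fun i _ => finrank_forms' (a i)

/-- a morphism of sections -/
noncomputable def secMap {n r : ℕ} {a : Fin n → ℤ} {b : Fin r → ℤ} (φ : Matrix (Fin n) (Fin r) S)
    (hφ : ∀ i j, φ i j ∈ Forms (a i - b j)) : H0 b →ₗ[ℂ] H0 a :=
  (φ.mulVecLin.restrictScalars ℂ).restrict (fun s hs => mem_H0.2 fun i =>
    Submodule.sum_mem _ fun j _ => by
      have := forms_mul_mem (hφ i j) (mem_H0.1 hs j)
      rwa [sub_add_cancel] at this)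

lemma secMap_coe {n r : ℕ} {a : Fin n → ℤ} {b : Fin r → ℤ} (φ : Matrix (Fin n) (Fin r) S)
    (hφ : ∀ i j, φ i j ∈ Forms (a i - b j)) (s : H0 b) : (secMap φ hφ s).1 = φ.mulVec s.1 := rfl

/-- subsystems give morphisms of representations -/
noncomputable def homOf {n r : ℕ} {E : CoherentSystem n} {E' : CoherentSystem r}
    {φ : Matrix (Fin n) (Fin r) S} (h : IsSubsystem E E' φ) : Hom (T1.repOf E') (T1.repOf E) where
  v := (φ.mulVecLin.restrictScalars ℂ).restrict (p := E'.V) (q := E.V) (fun s hs => h.2.2 s hs)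
  w := secMap φ h.1
  u := secMap (a := fun l => E.a l - 1) (b := fun l => E'.a l - 1) φ (fun i j => by
    have := h.1 i j
    have e : E.a i - 1 - (E'.a j - 1) = E.a i - E'.a j := by ring
    rw [e]; exact this)
  hf := rfl
  hx := by
    apply LinearMap.ext
    intro s
    apply Subtype.ext
    show φ.mulVec ((X 0 : S) • s.1) = (X 0 : S) • φ.mulVec s.1
    exact Matrix.mulVec_smul _ _ _
  hy := by
    apply LinearMap.ext
    intro s
    apply Subtype.ext
    show φ.mulVec ((X 1 : S) • s.1) = (X 1 : S) • φ.mulVec s.1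
    exact Matrix.mulVec_smul _ _ _

lemma homOf_inj {n r : ℕ} {E : CoherentSystem n} {E' : CoherentSystem r}
    {φ : Matrix (Fin n) (Fin r) S} (h : IsSubsystem E E' φ) : (homOf h).Inj := by
  refine ⟨?_, ?_, ?_⟩
  · intro s t hst
    apply Subtype.ext
    apply h.2.1
    have := congrArg (fun z : E.V => z.1) hst
    exact this
  · intro s t hst
    apply Subtype.ext
    apply h.2.1
    have := congrArg (fun z : H0 E.a => z.1) hst
    exact this
  · intro s t hst
    apply Subtype.ext
    apply h.2.1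
    have := congrArg (fun z : H0 (fun l => E.a l - 1) => z.1) hst
    exact this

/-- a bundle whose representation is stable is stable -/
theorem stable_of_repOf {n : ℕ} (hn : 1 ≤ n) {α : ℝ} (hα : 0 < α) (E : CoherentSystem n)
    (ha : ∀ i, 0 ≤ E.a i) (hk : 1 ≤ E.dimV) (hM : Stable α (T1.repOf E)) : E.Stable α := by
  classical
  intro r E' φ hr hsub hne
  have hty := T1.ty_repOf E ha
  have hst := hM.2 _ (homOf hsub) (homOf_inj hsub)
  have hrn : r ≤ n := by
    have := LinearMap.finrank_le_finrank_of_injective (f := φ.mulVecLin) hsub.2.1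
    simpa using this
  have hdeg0 : 0 ≤ E.degree := Finset.sum_nonneg fun l _ => ha l
  have hn' : (0 : ℝ) < n := by exact_mod_cast hn
  have hr' : (0 : ℝ) < r := by exact_mod_cast hr
  have hrn' : (r : ℝ) ≤ n := by exact_mod_cast hrn
  have hk' : (0 : ℝ) < E.dimV := by exact_mod_cast hk
  have hd' : (0 : ℝ) ≤ E.degree := by exact_mod_cast hdeg0
  have hlam : 0 < (E.degree : ℝ) + α * E.dimV := by positivity
  -- dimensions
  have hW : (finrank ℂ (H0 E'.a) : ℤ) = ∑ j, max (E'.a j + 1) 0 := finrank_H0' _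
  have hU : (finrank ℂ (H0 (fun l => E'.a l - 1)) : ℤ) = ∑ j, max (E'.a j) 0 := by
    rw [finrank_H0']
    exact Finset.sum_congr rfl fun j _ => by rw [sub_add_cancel]
  have hty' : (T1.repOf E').ty = ((E'.dimV : ℤ), ∑ j, max (E'.a j + 1) 0, ∑ j, max (E'.a j) 0) := by
    rw [← hW, ← hU]
    rfl
  have hUd : E'.degree ≤ ∑ j, max (E'.a j) 0 := Finset.sum_le_sum fun j _ => le_max_left _ _
  have hWU : ∑ j, max (E'.a j + 1) 0 - ∑ j, max (E'.a j) 0 ≤ r := by
    rw [← Finset.sum_sub_distrib]
    calc ∑ j, (max (E'.a j + 1) 0 - max (E'.a j) 0) ≤ ∑ _j : Fin r, (1 : ℤ) :=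
          Finset.sum_le_sum fun j _ => by omega
      _ = r := by simp
  have e1 : (E'.degree : ℝ) / r + α * ((E'.dimV : ℝ) / r)
      = ((E'.degree : ℝ) + α * E'.dimV) / r := by ring
  have e2 : (E.degree : ℝ) / n + α * ((E.dimV : ℝ) / n)
      = ((E.degree : ℝ) + α * E.dimV) / n := by ring
  show (E'.degree : ℝ) / r + α * ((E'.dimV : ℝ) / r) < (E.degree : ℝ) / n + α * ((E.dimV : ℝ) / n)
  rw [e1, e2, div_lt_div_iff₀ hr' hn']
  by_cases h0 : (T1.repOf E').ty = 0
  · -- all summands negative
    rw [hty'] at h0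
    simp only [Prod.mk_eq_zero] at h0
    obtain ⟨h1, h2, h3⟩ := h0
    have h4 : ∀ j, E'.a j ≤ -1 := by
      intro j
      have h5 : max (E'.a j + 1) 0 = 0 := by
        have := (Finset.sum_eq_zero_iff_of_nonneg (fun j _ => le_max_right _ _)).1 h2 j
          (Finset.mem_univ j)
        exact this
      have := le_max_left (E'.a j + 1) 0
      omega
    have h6 : E'.degree ≤ -1 := by
      have : E'.degree ≤ ∑ _j : Fin r, (-1 : ℤ) := Finset.sum_le_sum fun j _ => h4 j
      simp at this
      have h7 : (1 : ℤ) ≤ r := by exact_mod_cast hr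
      linarith
    have h8 : (E'.degree : ℝ) ≤ -1 := by exact_mod_cast h6
    have h9 : (E'.dimV : ℝ) = 0 := by exact_mod_cast h1
    rw [h9, mul_zero, add_zero]
    have : 0 < ((E.degree : ℝ) + α * E.dimV) * r := by positivity
    nlinarith
  · by_cases h1 : (T1.repOf E').ty = (T1.repOf E).ty
    · exfalso
      apply hne
      rw [hty', hty] at h1
      simp only [Prod.mk.injEq, Nat.cast_inj] at h1
      obtain ⟨h2, h3, h4⟩ := h1
      have h5 : (r : ℤ) ≤ n := by exact_mod_cast hrn
      have h6 : (r : ℤ) = n := by linarith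
      have h7 : r = n := by exact_mod_cast h6
      -- all summands are nonnegative
      have h8 : ∑ j, (1 - (max (E'.a j + 1) 0 - max (E'.a j) 0)) = 0 := by
        rw [Finset.sum_sub_distrib, Finset.sum_sub_distrib, h3, h4]
        simp
        linarith
      have h9 : ∀ j, 0 ≤ E'.a j := by
        intro j
        have := (Finset.sum_eq_zero_iff_of_nonneg (fun j _ => by omega)).1 h8 j
          (Finset.mem_univ j)
        omega
      have h10 : E'.degree = E.degree := by
        rw [← h4]
        exact Finset.sum_congr rfl fun j _ => (max_eq_left (h9 j)).symm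
      simp only [Prod.mk.injEq]
      exact ⟨h7, h10, h2⟩
    · have h2 := hst h0 h1
      rw [hty, hty'] at h2
      simp only [cr, lam, rk] at h2
      push_cast at h2
      have h3 : (E'.degree : ℝ) ≤ ∑ j, max (E'.a j : ℝ) 0 := by
        have : ((E'.degree : ℤ) : ℝ) ≤ ((∑ j, max (E'.a j) 0 : ℤ) : ℝ) := by exact_mod_cast hUd
        push_cast at this
        exact this
      have h4 : ∑ j, max ((E'.a j : ℝ) + 1) 0 - ∑ j, max (E'.a j : ℝ) 0 ≤ r := by
        have : ((∑ j, max (E'.a j + 1) 0 - ∑ j, max (E'.a j) 0 : ℤ) : ℝ) ≤ ((r : ℤ) : ℝ) := by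
          exact_mod_cast hWU
        push_cast at this
        exact this
      have h5 := mul_le_mul_of_nonneg_left h4 hlam.le
      have h6 := mul_le_mul_of_nonneg_right h3 hn'.le
      nlinarith

end T2

end CohP1
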