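import Pool.Agent.Lib_helper75.Coh.T1

/-!
# Block T2: from a pencil of injective maps to a vector bundle
-/

set_option autoImplicit false

namespace CohP1

open Module MvPolynomial

namespace T2

lemma exists_left_inv {w u : ℕ} (A : Matrix (Fin w) (Fin u) ℂ)
    (hA : ∀ l, A.mulVec l = 0 → l = 0) : ∃ Z : Matrix (Fin u) (Fin w) ℂ, Z * A = 1 := by
  have hker : LinearMap.ker (Matrix.toLin' A) = ⊥ := by
    rw [LinearMap.ker_eq_bot']
    intro l hl
    exact hA l (by simpa using hl)
  obtain ⟨z, hz⟩ := (Matrix.toLin' A).exists_leftInverse_of_injective hker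
  refine ⟨LinearMap.toMatrix' z, ?_⟩
  have h1 : LinearMap.toMatrix' (z ∘ₗ Matrix.toLin' A) = 1 := by
    rw [hz, LinearMap.toMatrix'_id]
  rw [LinearMap.toMatrix'_comp, LinearMap.toMatrix'_toLin'] at h1
  exact h1

/-- the transpose of a pointwise injective matrix has full rank -/
lemma rank_transpose_ge {w r : ℕ} (φ : Matrix (Fin w) (Fin r) S)
    (hφ : ∀ l : Fin r → ℂ, (∀ i, ∑ j, l j * eval ![0, 1] (φ i j) = 0) → l = 0) :
    r ≤ finrank S (LinearMap.range φ.transpose.mulVecLin) := by
  obtain ⟨Z, hZ⟩ := exists_left_inv (Matrix.of fun i j => eval ![0, 1] (φ i j)) (by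
    intro l hl
    apply hφ
    intro i
    refine Eq.trans ?_ (congrFun hl i)
    show _ = ∑ j, eval ![0, 1] (φ i j) * l j
    exact Finset.sum_congr rfl fun j _ => mul_comm _ _)
  set M : Matrix (Fin r) (Fin r) S := Matrix.of fun i j => ∑ l, C (Z i l) * φ l j with hM
  have hdet : M.det ≠ 0 := by
    intro h0
    have h1 := congrArg (eval ![0, 1]) h0
    rw [RingHom.map_det, map_zero] at h1
    have h2 : (eval ![0, 1]).mapMatrix M = (1 : Matrix (Fin r) (Fin r) ℂ) := by
      rw [← hZ]
      ext i j
      rw [RingHom.mapMatrix_apply, Matrix.map_apply]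
      show eval ![0, 1] (∑ l, C (Z i l) * φ l j) = ∑ l, Z i l * eval ![0, 1] (φ l j)
      rw [map_sum]
      apply Finset.sum_congr rfl
      intro l _
      rw [map_mul, eval_C]
    rw [h2, Matrix.det_one] at h1
    exact one_ne_zero h1
  have hdetT : M.transpose.det ≠ 0 := by rwa [Matrix.det_transpose]
  set D : (Fin r → S) →ₗ[S] (Fin r → S) :=
    φ.transpose.mulVecLin ∘ₗ (Matrix.of fun (l : Fin w) (i : Fin r) => (C (Z i l) : S)).mulVecLin
    with hD
  have hDe : ∀ g, D g = M.transpose.mulVec g := by
    intro g
    ext1 j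
    show ∑ l, φ l j * (∑ i, C (Z i l) * g i) = ∑ i, (∑ l, C (Z i l) * φ l j) * g i
    simp only [Finset.mul_sum, Finset.sum_mul]
    rw [Finset.sum_comm]
    apply Finset.sum_congr rfl
    intro i _
    apply Finset.sum_congr rfl
    intro l _
    ring
  have hmem : ∀ g, D g ∈ LinearMap.range φ.transpose.mulVecLin := fun g => ⟨_, rfl⟩
  have hinj : Function.Injective D := by
    intro g h hgh
    rw [hDe, hDe] at hgh
    have : M.transpose.mulVec (g - h) = 0 := by rw [Matrix.mulVec_sub, hgh, sub_self]
    exact sub_eq_zero.1 (Matrix.eq_zero_of_mulVec_eq_zero hdetT this)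
  have := LinearMap.finrank_le_finrank_of_injective
    (f := D.codRestrict (LinearMap.range φ.transpose.mulVecLin) hmem)
    (by
      intro x y hxy
      exact hinj (congrArg Subtype.val hxy))
  rwa [Module.finrank_fin_fun] at this

lemma ker_transpose_le {w r : ℕ} (φ : Matrix (Fin w) (Fin r) S)
    (hφ : ∀ l : Fin r → ℂ, (∀ i, ∑ j, l j * eval ![0, 1] (φ i j) = 0) → l = 0) :
    finrank S (LinearMap.ker φ.transpose.mulVecLin) + r ≤ w := by
  have h1 := Submodule.finrank_quotient_add_finrank (LinearMap.ker φ.transpose.mulVecLin)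
  rw [Module.finrank_fin_fun] at h1
  have h2 : finrank S ((Fin w → S) ⧸ LinearMap.ker φ.transpose.mulVecLin)
      = finrank S (LinearMap.range φ.transpose.mulVecLin) :=
    φ.transpose.mulVecLin.quotKerEquivRange.finrank_eq
  have h3 := rank_transpose_ge φ hφ
  omega

lemma e01_ne : (![0, 1] : Fin 2 → ℂ) ≠ 0 := by
  intro h
  have := congrFun h 1
  simp at this

/-- the bundle attached to a pencil `y X' - x Y'` of injective maps -/
theorem pencil_bundle {w u n : ℕ} (hw : w = u + n) (X' Y' : Matrix (Fin w) (Fin u) ℂ)
    (hinj : ∀ p : Fin 2 → ℂ, p ≠ 0 → ∀ l : Fin u → ℂ,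
      (∀ i, ∑ t, l t * (p 1 * X' i t - p 0 * Y' i t) = 0) → l = 0) :
    ∃ (c : Fin n → ℤ) (φ : Matrix (Fin w) (Fin n) S), (∀ j, 0 ≤ c j) ∧
      (∀ l j, φ l j ∈ Forms (c j)) ∧ ∑ j, c j = u ∧
      (∀ j t, ∑ l, φ l j * (X 1 * C (X' l t) - X 0 * C (Y' l t)) = 0) ∧
      (∀ ω : Fin w → ℂ, (∀ j, ∑ l, C (ω l) * φ l j = 0) → ω = 0) := by
  classical
  set P : Matrix (Fin w) (Fin u) S := Matrix.of fun l t => X 1 * C (X' l t) - X 0 * C (Y' l t)
    with hP
  have hPF : ∀ l t, P l t ∈ Forms 1 := by
    intro l t
    have h0 := forms_mul_mem (X_mem_forms 1) (C_mem_forms (X' l t))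
    have h1 := forms_mul_mem (X_mem_forms 0) (C_mem_forms (Y' l t))
    rw [add_zero] at h0 h1
    exact Submodule.sub_mem _ h0 h1
  have hPind : ∀ p : Fin 2 → ℂ, p ≠ 0 → ∀ l : Fin u → ℂ,
      (∀ i, ∑ t, l t * eval p (P i t) = 0) → l = 0 := by
    intro p hp l hl
    apply hinj p hp l
    intro i
    rw [← hl i]
    apply Finset.sum_congr rfl
    intro t _
    congr 1
    show _ = eval p (X 1 * C (X' i t) - X 0 * C (Y' i t))
    simp
  have hPinj : ∀ g : Fin u → S, P.mulVec g = 0 → g = 0 := by
    obtain ⟨Z, hZ⟩ := exists_left_inv X' (by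
      intro l hl
      apply hinj ![0, 1] e01_ne l
      intro i
      refine Eq.trans ?_ (congrFun hl i)
      show _ = ∑ t, X' i t * l t
      apply Finset.sum_congr rfl
      intro t _
      simp
      ring)
    intro g hg
    exact T1.pencil_inj X' Y' Z hZ P (fun _ _ => rfl) g hg
  set L : Submodule S (Fin w → S) := LinearMap.ker P.transpose.mulVecLin with hL
  have hLmem : ∀ s : Fin w → S, s ∈ L ↔ ∀ t, ∑ l, P l t * s l = 0 := by
    intro s
    rw [hL, LinearMap.mem_ker]
    constructor
    · intro h t
      exact congrFun h t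
    · intro h
      ext1 t
      exact h t
  obtain ⟨r, b, φ, hφF, hφi, hφL, hφind, hspl⟩ := splitting' (fun _ => (0 : ℤ)) L (by
      intro g v hg hgv
      rw [hLmem] at hgv ⊢
      intro t
      have h1 := hgv t
      have h2 : ∑ l, P l t * (g • v) l = g * ∑ l, P l t * v l := by
        rw [Finset.mul_sum]
        apply Finset.sum_congr rfl
        intro l _
        rw [Pi.smul_apply, smul_eq_mul]
        ring
      rw [h2] at h1
      exact (mul_eq_zero.1 h1).resolve_left hg)
  -- the rank is at most n
  have hker := ker_transpose_le P (fun l hl => hPind ![0, 1] e01_ne l hl)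
  have hr1 : r ≤ finrank S L := by
    have hmem : ∀ g, φ.mulVecLin g ∈ L := by
      intro g
      have : φ.mulVecLin g = ∑ j, g j • (fun i => φ i j) := by
        ext1 i
        rw [Finset.sum_apply]
        show ∑ j, φ i j * g j = _
        apply Finset.sum_congr rfl
        intro j _
        rw [Pi.smul_apply, smul_eq_mul, mul_comm]
      rw [this]
      exact Submodule.sum_mem _ fun j _ => L.smul_mem _ (hφL j)
    have := LinearMap.finrank_le_finrank_of_injective (f := φ.mulVecLin.codRestrict L hmem)
      (by
        intro x y hxy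
        exact hφi (congrArg Subtype.val hxy))
    rwa [Module.finrank_fin_fun] at this
  have hrn : r ≤ n := by
    rw [hL] at hr1
    omega
  -- dimension count
  have hcount : ∀ m : ℕ, (∀ j, -1 ≤ b j + m) →
      (w : ℤ) * (m + 1) ≤ u * (m + 2) + ∑ j, (b j + m + 1) := by
    intro m hm
    set T : H0 (fun _ : Fin w => (m : ℤ)) →ₗ[ℂ] H0 (fun _ : Fin u => (m : ℤ) + 1) :=
      { toFun := fun s => ⟨fun t => ∑ l, P l t * s.1 l, mem_H0.2 fun t =>
          Submodule.sum_mem _ fun l _ => by
            have := forms_mul_mem (hPF l t) (mem_H0.1 s.2 l)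
            rwa [add_comm] at this⟩
        map_add' := by
          intro s t
          apply Subtype.ext
          ext1 i
          show ∑ l, P l i * (s.1 l + t.1 l) = ∑ l, P l i * s.1 l + ∑ l, P l i * t.1 l
          rw [← Finset.sum_add_distrib]
          exact Finset.sum_congr rfl fun l _ => by ring
        map_smul' := by
          intro c s
          apply Subtype.ext
          ext1 i
          show ∑ l, P l i * (c • s.1 l) = c • ∑ l, P l i * s.1 l
          rw [Finset.smul_sum]
          exact Finset.sum_congr rfl fun l _ => by rw [mul_smul_comm] } with hT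
    have h1 := T.finrank_range_add_finrank_ker
    have h2 : (finrank ℂ (H0 (fun _ : Fin w => (m : ℤ))) : ℤ) = w * (m + 1) := by
      rw [finrank_H0 (fun _ => by omega)]
      simp
    have h3 : (finrank ℂ (H0 (fun _ : Fin u => (m : ℤ) + 1)) : ℤ) = u * (m + 2) := by
      rw [finrank_H0 (fun _ => by omega), Finset.sum_const, Finset.card_univ, Fintype.card_fin,
        nsmul_eq_mul]
      ring
    have h4 : finrank ℂ (LinearMap.range T) ≤ finrank ℂ (H0 (fun _ : Fin u => (m : ℤ) + 1)) :=
      Submodule.finrank_le _
    have h5 : (finrank ℂ (LinearMap.ker T) : ℤ) ≤ ∑ j, (b j + m + 1) := by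
      have h6 : (finrank ℂ (H0 (fun j => b j + (m : ℤ))) : ℤ) = ∑ j, (b j + m + 1) :=
        finrank_H0 hm
      rw [← h6]
      set Φ : (Fin r → S) →ₗ[ℂ] (Fin w → S) := φ.mulVecLin.restrictScalars ℂ with hΦ
      have h7 : (LinearMap.ker T).map (H0 (fun _ : Fin w => (m : ℤ))).subtype
          ≤ (H0 (fun j => b j + (m : ℤ))).map Φ := by
        rintro _ ⟨s, hs, rfl⟩
        have hsL : s.1 ∈ L := by
          rw [hLmem]
          intro t
          have : T s = 0 := hs
          exact congrFun (congrArg Subtype.val this) t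
        obtain ⟨g, hg, hge⟩ := hspl m s.1 (fun i => by
          rw [zero_add]; exact mem_H0.1 s.2 i) hsL
        exact ⟨g, mem_H0.2 hg, hge.symm⟩
      have h8 := Submodule.finrank_mono h7
      have h9 := Submodule.finrank_map_le Φ (H0 (fun j => b j + (m : ℤ)))
      have h10 : finrank ℂ ((LinearMap.ker T).map (H0 (fun _ : Fin w => (m : ℤ))).subtype)
          = finrank ℂ (LinearMap.ker T) :=
        (Submodule.equivMapOfInjective _ Subtype.val_injective (LinearMap.ker T)).finrank_eq.symm
      rw [h10] at h8
      exact_mod_cast h8.trans h9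
    have h1' : (finrank ℂ (LinearMap.range T) : ℤ) + finrank ℂ (LinearMap.ker T)
        = w * (m + 1) := by
      rw [← h2]; exact_mod_cast h1
    have h4' : (finrank ℂ (LinearMap.range T) : ℤ) ≤ u * (m + 2) := by
      rw [← h3]; exact_mod_cast h4
    linarith
  have hbsum : ∀ m : ℤ, ∑ j, (b j + m + 1) = ∑ j, b j + r * (m + 1) := by
    intro m
    simp only [add_assoc]
    rw [Finset.sum_add_distrib, Finset.sum_const, Finset.card_univ, Fintype.card_fin, nsmul_eq_mul]
  -- large m
  have hlarge : ∃ m0 : ℕ, ∀ m : ℕ, m0 ≤ m → ∀ j, -1 ≤ b j + m := by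
    refine ⟨∑ j, (b j).natAbs, fun m hm j => ?_⟩
    have h1 : (b j).natAbs ≤ ∑ j, (b j).natAbs :=
      Finset.single_le_sum (f := fun j => (b j).natAbs) (fun _ _ => Nat.zero_le _)
        (Finset.mem_univ j)
    omega
  obtain ⟨m0, hm0⟩ := hlarge
  have hreq : r = n := by
    by_contra hne
    have hlt : r + 1 ≤ n := by omega
    set m : ℕ := m0 + (∑ j, b j).natAbs + u with hm
    have h1 := hcount m (hm0 m (by omega))
    rw [hbsum] at h1
    have h2 : (r : ℤ) + 1 ≤ n := by exact_mod_cast hlt
    have h3 : (w : ℤ) = u + n := by exact_mod_cast hw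
    have h4 : ∑ j, b j ≤ (∑ j, b j).natAbs := Int.le_natAbs
    have h5 : (m : ℤ) = m0 + (∑ j, b j).natAbs + u := by rw [hm]; push_cast; ring
    have h6 : (0 : ℤ) ≤ m0 := Int.natCast_nonneg _
    rw [h3] at h1
    have h7 : ((r : ℤ) + 1) * (m + 1) ≤ n * (m + 1) := by
      apply mul_le_mul_of_nonneg_right h2
      positivity
    nlinarith
  subst hreq
  have hbs : -(u : ℤ) ≤ ∑ j, b j := by
    have h1 := hcount m0 (hm0 m0 le_rfl)
    rw [hbsum] at h1
    have h3 : (w : ℤ) = u + r := by exact_mod_cast hw
    rw [h3] at h1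
    nlinarith
  have hb0 : ∀ j, b j ≤ 0 := by
    intro j
    obtain ⟨i, hi⟩ : ∃ i, φ i j ≠ 0 := by
      by_contra hcon
      push Not at hcon
      have h0 : (Pi.single j (1 : S) : Fin r → S) = 0 := by
        apply hφi
        rw [Matrix.mulVec_zero]
        ext1 i
        rw [Matrix.mulVec_single_one]
        exact hcon i
      have := congrFun h0 j
      rw [Pi.single_eq_same] at this
      exact one_ne_zero this
    by_contra h
    have h1 := hφF i j
    rw [forms_eq_bot (by linarith), Submodule.mem_bot] at h1
    exact hi h1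
  -- injectivity on constants
  have hφP : ∀ j t, ∑ l, φ l j * (X 1 * C (X' l t) - X 0 * C (Y' l t)) = 0 := by
    intro j t
    have h1 := (hLmem _).1 (hφL j) t
    rw [← h1]
    apply Finset.sum_congr rfl
    intro l _
    exact mul_comm _ _
  have hker2 := ker_transpose_le φ (fun l hl => hφind ![0, 1] e01_ne l hl)
  have hconst : ∀ ω : Fin w → ℂ, (∀ j, ∑ l, C (ω l) * φ l j = 0) → ω = 0 := by
    intro ω hω
    -- dependence
    obtain ⟨q, hq, h, hqh⟩ : ∃ q : S, q ≠ 0 ∧ ∃ h : Fin u → S,
        q • (fun l => (C (ω l) : S)) + P.mulVec h = 0 := by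
      by_contra hcon
      push Not at hcon
      set D : (Fin (u + 1) → S) →ₗ[S] (Fin w → S) :=
        { toFun := fun g => g 0 • (fun l => (C (ω l) : S)) + P.mulVec (fun t => g t.succ)
          map_add' := by
            intro g h
            have : (fun t : Fin u => (g + h) t.succ)
              = (fun t : Fin u => g t.succ) + fun t : Fin u => h t.succ := rfl
            rw [this, Matrix.mulVec_add, Pi.add_apply, add_smul]
            abel
          map_smul' := by
            intro c g
            have : (fun t : Fin u => (c • g) t.succ) = c • (fun t : Fin u => g t.succ) := rfl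
            rw [this, Matrix.mulVec_smul, Pi.smul_apply, smul_assoc, RingHom.id_apply, smul_add] }
        with hD
      have hDinj : Function.Injective D := by
        rw [← LinearMap.ker_eq_bot, LinearMap.ker_eq_bot']
        intro g hg
        have hg' : g 0 • (fun l => (C (ω l) : S)) + P.mulVec (fun t => g t.succ) = 0 := hg
        have hg0 : g 0 = 0 := by
          by_contra hne
          exact hcon (g 0) hne _ hg'
        rw [hg0, zero_smul, zero_add] at hg'
        have hrest := hPinj _ hg'
        ext1 t
        refine Fin.cases hg0 (fun t => congrFun hrest t) t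
      have hmem : ∀ g, D g ∈ LinearMap.ker φ.transpose.mulVecLin := by
        intro g
        rw [LinearMap.mem_ker]
        ext1 j
        show ∑ l, φ l j * (g 0 * C (ω l) + ∑ t, P l t * g t.succ) = 0
        have e1 : ∀ l, φ l j * (g 0 * C (ω l) + ∑ t, P l t * g t.succ)
            = g 0 * (C (ω l) * φ l j) + ∑ t, (φ l j * P l t) * g t.succ := by
          intro l
          rw [mul_add, Finset.mul_sum]
          congr 1
          · ring
          · exact Finset.sum_congr rfl fun t _ => by ring
        simp only [e1]
        rw [Finset.sum_add_distrib, ← Finset.mul_sum, hω j, mul_zero, zero_add, Finset.sum_comm]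
        apply Finset.sum_eq_zero
        intro t _
        rw [← Finset.sum_mul]
        have : ∑ l, φ l j * P l t = 0 := hφP j t
        rw [this, zero_mul]
      have := LinearMap.finrank_le_finrank_of_injective
        (f := D.codRestrict (LinearMap.ker φ.transpose.mulVecLin) hmem)
        (by
          intro x y hxy
          exact hDinj (congrArg Subtype.val hxy))
      rw [Module.finrank_fin_fun] at this
      omega
    obtain ⟨s, hs, hse⟩ := G.of_dep (a := fun _ : Fin w => (0 : ℤ)) (b := fun _ : Fin u => (-1 : ℤ))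
      (φ := P) (fun i j => by simpa using hPF i j) hPind (c := 0)
      (v := fun l => (C (ω l) : S)) (fun l => by simpa using C_mem_forms (ω l)) hq hqh
    have hs0 : s = 0 := by
      ext1 t
      have := hs t
      rw [forms_eq_bot (by norm_num), Submodule.mem_bot] at this
      exact this
    rw [hs0, Matrix.mulVec_zero] at hse
    ext1 l
    have := congrFun hse l
    simpa using this
  refine ⟨fun j => -b j, φ, fun j => by linarith [hb0 j], ?_, ?_, hφP, hconst⟩
  · intro l j
    have := hφF l j
    rwa [zero_sub] at this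
  · -- sum of the degrees
    have hle : (w : ℤ) ≤ ∑ j, (-b j + 1) := by
      have hF : ∀ j, -1 ≤ -b j := fun j => by linarith [hb0 j]
      rw [← finrank_H0 (a := fun j => -b j) hF]
      set T : (Fin w → ℂ) →ₗ[ℂ] H0 (fun j => -b j) :=
        { toFun := fun ω => ⟨fun j => ∑ l, C (ω l) * φ l j, mem_H0.2 fun j =>
            Submodule.sum_mem _ fun l _ => by
              have := forms_mul_mem (C_mem_forms (ω l)) (hφF l j)
              simpa using this⟩
          map_add' := by
            intro s t
            apply Subtype.ext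
            ext1 j
            show ∑ l, C (s l + t l) * φ l j = ∑ l, C (s l) * φ l j + ∑ l, C (t l) * φ l j
            rw [← Finset.sum_add_distrib]
            exact Finset.sum_congr rfl fun l _ => by rw [map_add]; ring
          map_smul' := by
            intro c s
            apply Subtype.ext
            ext1 j
            show ∑ l, C (c * s l) * φ l j = c • ∑ l, C (s l) * φ l j
            rw [Finset.smul_sum]
            exact Finset.sum_congr rfl fun l _ => by
              rw [map_mul, MvPolynomial.smul_eq_C_mul]; ring } with hT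
      have := LinearMap.finrank_le_finrank_of_injective (f := T) (by
        rw [← LinearMap.ker_eq_bot, LinearMap.ker_eq_bot']
        intro ω hω
        apply hconst
        intro j
        exact congrFun (congrArg Subtype.val hω) j)
      rw [Module.finrank_fin_fun] at this
      exact_mod_cast this
    rw [Finset.sum_add_distrib, Finset.sum_neg_distrib] at hle
    simp at hle
    have h3 : (w : ℤ) = u + r := by exact_mod_cast hw
    show ∑ j, -b j = u
    rw [Finset.sum_neg_distrib]
    linarith

end T2

end CohP1
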