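import Pool.Agent.Lib_helper75.Coh.T2

/-!
# Block T2, end
-/

set_option autoImplicit false

namespace CohP1

open Module MvPolynomial

namespace T2

/-- subrepresentation from subspaces -/
def subRep (M : QRep) (V' : Submodule ℂ M.V) (W' : Submodule ℂ M.W) (U' : Submodule ℂ M.U)
    (hf : ∀ v ∈ V', M.f v ∈ W') (hx : ∀ u ∈ U', M.x u ∈ W') (hy : ∀ u ∈ U', M.y u ∈ W') :
    QRep where
  V := V'
  W := W'
  U := U'
  f := M.f.restrict hf
  x := M.x.restrict hx
  y := M.y.restrict hy

def subι (M : QRep) (V' : Submodule ℂ M.V) (W' : Submodule ℂ M.W) (U' : Submodule ℂ M.U)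
    (hf : ∀ v ∈ V', M.f v ∈ W') (hx : ∀ u ∈ U', M.x u ∈ W') (hy : ∀ u ∈ U', M.y u ∈ W') :
    Hom (subRep M V' W' U' hf hx hy) M where
  v := V'.subtype
  w := W'.subtype
  u := U'.subtype
  hf := rfl
  hx := rfl
  hy := rfl

lemma subι_inj (M : QRep) (V' : Submodule ℂ M.V) (W' : Submodule ℂ M.W) (U' : Submodule ℂ M.U)
    (hf : ∀ v ∈ V', M.f v ∈ W') (hx : ∀ u ∈ U', M.x u ∈ W') (hy : ∀ u ∈ U', M.y u ∈ W') :
    (subι M V' W' U' hf hx hy).Inj :=
  ⟨Subtype.val_injective, Subtype.val_injective, Subtype.val_injective⟩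

lemma f_inj {n k : ℕ} {d : ℤ} (hn : 1 ≤ n) {α : ℝ} (hα : 0 < α)
    (M : QRep) (hM : Stable α M) (hty : M.ty = ((k : ℤ), d + n, d)) :
    Function.Injective M.f := by
  rw [← LinearMap.ker_eq_bot]
  by_contra hne
  have hd : 0 ≤ d := by
    have := M.pos.2.2
    rw [hty] at this
    exact this
  have h1 := hM.2 _ (subι M (LinearMap.ker M.f) ⊥ ⊥ (fun v hv => by
      rw [LinearMap.mem_ker] at hv; rw [hv]; exact Submodule.zero_mem _)
      (fun u hu => by rw [Submodule.mem_bot] at hu; rw [hu, map_zero]; exact Submodule.zero_mem _)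
      (fun u hu => by rw [Submodule.mem_bot] at hu; rw [hu, map_zero]; exact Submodule.zero_mem _))
    (subι_inj _ _ _ _ _ _ _)
  set A := subRep M (LinearMap.ker M.f) ⊥ ⊥ (fun v hv => by
      rw [LinearMap.mem_ker] at hv; rw [hv]; exact Submodule.zero_mem _)
      (fun u hu => by rw [Submodule.mem_bot] at hu; rw [hu, map_zero]; exact Submodule.zero_mem _)
      (fun u hu => by rw [Submodule.mem_bot] at hu; rw [hu, map_zero]; exact Submodule.zero_mem _)
  have hA : A.ty = ((finrank ℂ (LinearMap.ker M.f) : ℤ), 0, 0) := by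
    show ((finrank ℂ (LinearMap.ker M.f) : ℤ), (finrank ℂ (⊥ : Submodule ℂ M.W) : ℤ),
      (finrank ℂ (⊥ : Submodule ℂ M.U) : ℤ)) = _
    rw [finrank_bot, finrank_bot]
    rfl
  have hpos : 0 < finrank ℂ (LinearMap.ker M.f) := by
    rw [Nat.pos_iff_ne_zero]
    intro h
    exact hne (Submodule.finrank_eq_zero.1 h)
  have h2 := h1 (by
    rw [hA]; intro h
    have := congrArg Prod.fst h
    simp only [Prod.fst_zero] at this
    omega) (by
    rw [hA, hty]; intro h
    have := congrArg (fun p => p.2.1) h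
    simp only at this
    omega)
  rw [hA, hty] at h2
  simp only [cr, lam, rk] at h2
  push_cast at h2
  have h3 : (0 : ℝ) < finrank ℂ (LinearMap.ker M.f) := by exact_mod_cast hpos
  have hn' : (0 : ℝ) < n := by exact_mod_cast hn
  have : 0 < α * (finrank ℂ (LinearMap.ker M.f)) * n := by positivity
  nlinarith

lemma pencil_inj' {n k : ℕ} {d : ℤ} (hn : 1 ≤ n) (hk : 1 ≤ k) {α : ℝ} (hα : 0 < α)
    (M : QRep) (hM : Stable α M) (hty : M.ty = ((k : ℤ), d + n, d)) (s t : ℂ)
    (hst : ¬ (s = 0 ∧ t = 0)) (u0 : M.U) (hu : s • M.x u0 + t • M.y u0 = 0) : u0 = 0 := by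
  by_contra hne
  have hd : 0 ≤ d := by
    have := M.pos.2.2
    rw [hty] at this
    exact this
  -- the span
  obtain ⟨w0, hx, hy⟩ : ∃ w0 : M.W, M.x u0 ∈ Submodule.span ℂ {w0} ∧
      M.y u0 ∈ Submodule.span ℂ {w0} := by
    by_cases hs : s = 0
    · have ht : t ≠ 0 := fun h => hst ⟨hs, h⟩
      rw [hs, zero_smul, zero_add] at hu
      refine ⟨M.x u0, Submodule.mem_span_singleton_self _, ?_⟩
      rw [(smul_eq_zero.1 hu).resolve_left ht]
      exact Submodule.zero_mem _
    · refine ⟨M.y u0, ?_, Submodule.mem_span_singleton_self _⟩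
      rw [Submodule.mem_span_singleton]
      refine ⟨-(s⁻¹ * t), ?_⟩
      have h1 : s • M.x u0 = -(t • M.y u0) := eq_neg_of_add_eq_zero_left hu
      have h2 : M.x u0 = s⁻¹ • (s • M.x u0) := by rw [smul_smul, inv_mul_cancel₀ hs, one_smul]
      rw [h2, h1, smul_neg, smul_smul, neg_smul]
  have hxx : ∀ u ∈ Submodule.span ℂ {u0}, M.x u ∈ Submodule.span ℂ {w0} := by
    intro u hu
    obtain ⟨c, rfl⟩ := Submodule.mem_span_singleton.1 hu
    rw [map_smul]
    exact Submodule.smul_mem _ _ hx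
  have hyy : ∀ u ∈ Submodule.span ℂ {u0}, M.y u ∈ Submodule.span ℂ {w0} := by
    intro u hu
    obtain ⟨c, rfl⟩ := Submodule.mem_span_singleton.1 hu
    rw [map_smul]
    exact Submodule.smul_mem _ _ hy
  have hff : ∀ v ∈ (⊥ : Submodule ℂ M.V), M.f v ∈ Submodule.span ℂ {w0} := by
    intro v hv
    rw [Submodule.mem_bot] at hv
    rw [hv, map_zero]
    exact Submodule.zero_mem _
  have h1 := hM.2 _ (subι M ⊥ (Submodule.span ℂ {w0}) (Submodule.span ℂ {u0}) hff hxx hyy)
    (subι_inj _ _ _ _ _ _ _)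
  set A := subRep M ⊥ (Submodule.span ℂ {w0}) (Submodule.span ℂ {u0}) hff hxx hyy
  have hA : A.ty = (0, (finrank ℂ (Submodule.span ℂ {w0}) : ℤ), 1) := by
    show ((finrank ℂ (⊥ : Submodule ℂ M.V) : ℤ), (finrank ℂ (Submodule.span ℂ {w0}) : ℤ),
      (finrank ℂ (Submodule.span ℂ {u0}) : ℤ)) = _
    rw [finrank_bot, finrank_span_singleton hne]
    rfl
  have hle : finrank ℂ (Submodule.span ℂ {w0}) ≤ 1 := by
    by_cases hw : w0 = 0
    · rw [hw, Submodule.span_zero_singleton, finrank_bot]; omega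
    · rw [finrank_span_singleton hw]
  have h2 := h1 (by
    rw [hA]; intro h
    have := congrArg (fun p => p.2.2) h
    simp at this) (by
    rw [hA, hty]; intro h
    have := congrArg Prod.fst h
    simp only at this
    omega)
  rw [hA, hty] at h2
  simp only [cr, lam, rk] at h2
  push_cast at h2
  have h3 : (finrank ℂ (Submodule.span ℂ {w0}) : ℝ) ≤ 1 := by exact_mod_cast hle
  have hn' : (0 : ℝ) < n := by exact_mod_cast hn
  have hk' : (0 : ℝ) < k := by exact_mod_cast hk
  have hd' : (0 : ℝ) ≤ d := by exact_mod_cast hd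
  have hlam : 0 < (d : ℝ) + α * k := by positivity
  nlinarith

/-- inverse of a bijective morphism -/
noncomputable def invHom {M N : QRep} (h : Hom M N) (hi : h.Inj) (hs : h.Surj) : Hom N M where
  v := (LinearEquiv.ofBijective h.v ⟨hi.1, hs.1⟩).symm
  w := (LinearEquiv.ofBijective h.w ⟨hi.2.1, hs.2.1⟩).symm
  u := (LinearEquiv.ofBijective h.u ⟨hi.2.2, hs.2.2⟩).symm
  hf := by
    apply LinearMap.ext
    intro a
    obtain ⟨b, rfl⟩ := hs.1 a
    have e1 : (LinearEquiv.ofBijective h.v ⟨hi.1, hs.1⟩).symm (h.v b) = b :=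
      (LinearEquiv.ofBijective h.v ⟨hi.1, hs.1⟩).symm_apply_apply b
    show (LinearEquiv.ofBijective h.w ⟨hi.2.1, hs.2.1⟩).symm (N.f (h.v b))
      = M.f ((LinearEquiv.ofBijective h.v ⟨hi.1, hs.1⟩).symm (h.v b))
    rw [e1, ← h.hf']
    exact (LinearEquiv.ofBijective h.w ⟨hi.2.1, hs.2.1⟩).symm_apply_apply (M.f b)
  hx := by
    apply LinearMap.ext
    intro a
    obtain ⟨b, rfl⟩ := hs.2.2 a
    have e1 : (LinearEquiv.ofBijective h.u ⟨hi.2.2, hs.2.2⟩).symm (h.u b) = b :=
      (LinearEquiv.ofBijective h.u ⟨hi.2.2, hs.2.2⟩).symm_apply_apply b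
    show (LinearEquiv.ofBijective h.w ⟨hi.2.1, hs.2.1⟩).symm (N.x (h.u b))
      = M.x ((LinearEquiv.ofBijective h.u ⟨hi.2.2, hs.2.2⟩).symm (h.u b))
    rw [e1, ← h.hx']
    exact (LinearEquiv.ofBijective h.w ⟨hi.2.1, hs.2.1⟩).symm_apply_apply (M.x b)
  hy := by
    apply LinearMap.ext
    intro a
    obtain ⟨b, rfl⟩ := hs.2.2 a
    have e1 : (LinearEquiv.ofBijective h.u ⟨hi.2.2, hs.2.2⟩).symm (h.u b) = b :=
      (LinearEquiv.ofBijective h.u ⟨hi.2.2, hs.2.2⟩).symm_apply_apply b
    show (LinearEquiv.ofBijective h.w ⟨hi.2.1, hs.2.1⟩).symm (N.y (h.u b))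
      = M.y ((LinearEquiv.ofBijective h.u ⟨hi.2.2, hs.2.2⟩).symm (h.u b))
    rw [e1, ← h.hy']
    exact (LinearEquiv.ofBijective h.w ⟨hi.2.1, hs.2.1⟩).symm_apply_apply (M.y b)

lemma invHom_inj {M N : QRep} (h : Hom M N) (hi : h.Inj) (hs : h.Surj) : (invHom h hi hs).Inj :=
  ⟨(LinearEquiv.ofBijective h.v ⟨hi.1, hs.1⟩).symm.injective,
    (LinearEquiv.ofBijective h.w ⟨hi.2.1, hs.2.1⟩).symm.injective,
    (LinearEquiv.ofBijective h.u ⟨hi.2.2, hs.2.2⟩).symm.injective⟩

/-- stability is invariant under isomorphism -/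
lemma stable_of_iso {α : ℝ} {M N : QRep} (h : Hom M N) (hi : h.Inj) (hty : M.ty = N.ty)
    (hM : Stable α M) : Stable α N := by
  have hs := hi.surj_of_ty hty
  refine ⟨by rw [← hty]; exact hM.1, ?_⟩
  intro A i hAi hA0 hAne
  rw [← hty] at hAne ⊢
  exact hM.2 A ((invHom h hi hs).comp i) ((invHom_inj h hi hs).comp hAi) hA0 hAne

end T2

open T2 in
/-- BLOCK T2. -/
theorem exists_system_of_rep {n k : ℕ} {d : ℤ} (hn : 1 ≤ n) (hk : 1 ≤ k) {α : ℝ} (hα : 0 < α)
    (M : QRep) (hM : Stable α M) (hty : M.ty = ((k : ℤ), d + n, d)) :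
    ∃ E : CoherentSystem n, E.degree = d ∧ E.dimV = k ∧ E.Stable α := by
  classical
  have hfi := f_inj hn hα M hM hty
  have hpi := pencil_inj' hn hk hα M hM hty
  have hV : finrank ℂ M.V = k := by
    have : (finrank ℂ M.V : ℤ) = k := congrArg Prod.fst hty
    exact_mod_cast this
  have hWd : (finrank ℂ M.W : ℤ) = d + n := congrArg (fun p => p.2.1) hty
  have hUd : (finrank ℂ M.U : ℤ) = d := congrArg (fun p => p.2.2) hty
  have hWU : finrank ℂ M.W = finrank ℂ M.U + n := by omega
  set bW := Module.finBasis ℂ M.W with hbW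
  set bU := Module.finBasis ℂ M.U with hbU
  set X' := LinearMap.toMatrix bU bW M.x with hX'
  set Y' := LinearMap.toMatrix bU bW M.y with hY'
  have hcoordx : ∀ l : Fin (finrank ℂ M.U) → ℂ, ∀ i,
      bW.repr (M.x (∑ t, l t • bU t)) i = ∑ t, l t * X' i t := by
    intro l i
    rw [map_sum, map_sum, Finsupp.finsetSum_apply]
    apply Finset.sum_congr rfl
    intro t _
    rw [map_smul, map_smul, Finsupp.smul_apply, smul_eq_mul, hX', LinearMap.toMatrix_apply]
  have hcoordy : ∀ l : Fin (finrank ℂ M.U) → ℂ, ∀ i,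
      bW.repr (M.y (∑ t, l t • bU t)) i = ∑ t, l t * Y' i t := by
    intro l i
    rw [map_sum, map_sum, Finsupp.finsetSum_apply]
    apply Finset.sum_congr rfl
    intro t _
    rw [map_smul, map_smul, Finsupp.smul_apply, smul_eq_mul, hY', LinearMap.toMatrix_apply]
  obtain ⟨c, φ, hc0, hφF, hcsum, hφP, hφc⟩ := pencil_bundle hWU X' Y' (by
    intro p hp l hl
    have h0 : ∑ t, l t • bU t = 0 := by
      apply hpi (p 1) (-p 0)
      · rintro ⟨h1, h2⟩
        apply hp
        ext j
        fin_cases j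
        · exact neg_eq_zero.1 h2
        · exact h1
      · apply bW.repr.injective
        ext i
        rw [map_zero, map_add, map_smul, map_smul, Finsupp.add_apply, Finsupp.smul_apply,
          Finsupp.smul_apply, hcoordx, hcoordy, smul_eq_mul, smul_eq_mul, Finsupp.zero_apply,
          ← hl i, Finset.mul_sum, Finset.mul_sum, ← Finset.sum_add_distrib]
        exact Finset.sum_congr rfl fun t _ => by ring
    have := Fintype.linearIndependent_iff.1 bU.linearIndependent l h0
    exact funext this)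
  -- the map ι
  set ι : M.W →ₗ[ℂ] H0 c :=
    { toFun := fun w => ⟨fun j => ∑ l, C (bW.repr w l) * φ l j, mem_H0.2 fun j =>
        Submodule.sum_mem _ fun l _ => by
          have := forms_mul_mem (C_mem_forms (bW.repr w l)) (hφF l j)
          rwa [zero_add] at this⟩
      map_add' := by
        intro s t
        apply Subtype.ext
        ext1 j
        show ∑ l, C (bW.repr (s + t) l) * φ l j
          = ∑ l, C (bW.repr s l) * φ l j + ∑ l, C (bW.repr t l) * φ l j
        rw [← Finset.sum_add_distrib]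
        exact Finset.sum_congr rfl fun l _ => by rw [map_add, Finsupp.add_apply, map_add]; ring
      map_smul' := by
        intro a s
        apply Subtype.ext
        ext1 j
        show ∑ l, C (bW.repr (a • s) l) * φ l j = a • ∑ l, C (bW.repr s l) * φ l j
        rw [Finset.smul_sum]
        exact Finset.sum_congr rfl fun l _ => by
          rw [map_smul, Finsupp.smul_apply, smul_eq_mul, map_mul, MvPolynomial.smul_eq_C_mul]
          ring } with hι
  have hιe : ∀ w j, (ι w).1 j = ∑ l, C (bW.repr w l) * φ l j := fun _ _ => rfl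
  have hιi : Function.Injective ι := by
    rw [← LinearMap.ker_eq_bot, LinearMap.ker_eq_bot']
    intro w hw
    have h1 := hφc (fun l => bW.repr w l) (by
      intro j
      rw [← hιe w j, hw]
      rfl)
    apply bW.repr.injective
    ext l
    rw [map_zero]
    exact congrFun h1 l
  -- the relation
  have hrel : ∀ u j, X 1 * (ι (M.x u)).1 j = X 0 * (ι (M.y u)).1 j := by
    intro u j
    have h1 : u = ∑ t, (bU.repr u t) • bU t := (bU.sum_repr u).symm
    rw [hιe, hιe, h1]
    simp only [hcoordx, hcoordy]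
    rw [← sub_eq_zero, Finset.mul_sum, Finset.mul_sum, ← Finset.sum_sub_distrib]
    have h2 : ∀ l, X 1 * (C (∑ t, bU.repr u t * X' l t) * φ l j)
        - X 0 * (C (∑ t, bU.repr u t * Y' l t) * φ l j)
        = ∑ t, C (bU.repr u t) * (φ l j * (X 1 * C (X' l t) - X 0 * C (Y' l t))) := by
      intro l
      rw [map_sum, map_sum]
      simp only [Finset.sum_mul, Finset.mul_sum]
      rw [← Finset.sum_sub_distrib]
      exact Finset.sum_congr rfl fun t _ => by rw [map_mul, map_mul]; ring
    simp only [h2]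
    rw [Finset.sum_comm]
    apply Finset.sum_eq_zero
    intro t _
    rw [← Finset.mul_sum, hφP j t, mul_zero]
  -- division
  have hlin : lin ![0, 1] = X 0 := by
    unfold lin
    simp
  have hψex : ∀ u : M.U, ∃ q : H0 (fun j => c j - 1), T1.mulX c 0 q = ι (M.x u) := by
    intro u
    have h1 : ∀ j, ∃ q ∈ Forms (c j - 1), (ι (M.x u)).1 j = lin ![0, 1] * q := by
      intro j
      apply exists_lin_mul (mem_H0.1 (ι (M.x u)).2 j) e01_ne
      have h2 := congrArg (eval ![0, 1]) (hrel u j)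
      simpa using h2
    choose q hq hqe using h1
    refine ⟨⟨q, mem_H0.2 hq⟩, Subtype.ext ?_⟩
    ext1 j
    rw [hqe j, hlin]
    rfl
  have hmulXi : Function.Injective (T1.mulX c 0) := by
    intro s t hst
    apply Subtype.ext
    ext1 j
    have h1 : (X 0 : S) * s.1 j = X 0 * t.1 j := by
      have := congrFun (congrArg Subtype.val hst) j
      exact this
    exact mul_left_cancel₀ (X_ne_zero 0) h1
  choose ψ0 hψ0 using hψex
  set ψ : M.U →ₗ[ℂ] H0 (fun j => c j - 1) :=
    { toFun := ψ0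
      map_add' := by
        intro s t
        apply hmulXi
        rw [map_add, hψ0, hψ0, hψ0, map_add, map_add]
      map_smul' := by
        intro a s
        apply hmulXi
        rw [map_smul, hψ0, hψ0, map_smul, map_smul]
        rfl } with hψ
  have hψx : ∀ u, T1.mulX c 0 (ψ u) = ι (M.x u) := hψ0
  have hψy : ∀ u, T1.mulX c 1 (ψ u) = ι (M.y u) := by
    intro u
    apply Subtype.ext
    ext1 j
    apply mul_left_cancel₀ (X_ne_zero (0 : Fin 2) : (X 0 : S) ≠ 0)
    rw [← hrel u j, ← hψx u]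
    show X 0 * (X 1 * (ψ u).1 j) = X 1 * (X 0 * (ψ u).1 j)
    ring
  -- the coherent system
  set g : M.V →ₗ[ℂ] (Fin n → S) := (H0 c).subtype ∘ₗ ι ∘ₗ M.f with hg
  have hgi : Function.Injective g := Subtype.val_injective.comp (hιi.comp hfi)
  set E : CoherentSystem n :=
    { a := c
      V := LinearMap.range g
      le := by
        rintro _ ⟨v, rfl⟩
        exact (ι (M.f v)).2 } with hE
  have hEdeg : E.degree = d := by
    show ∑ j, c j = d
    rw [hcsum, hUd]
  have hEdim : E.dimV = k := by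
    show finrank ℂ (LinearMap.range g) = k
    rw [LinearMap.finrank_range_of_inj hgi, hV]
  refine ⟨E, hEdeg, hEdim, ?_⟩
  have hEty := T1.ty_repOf E hc0
  rw [hEdeg, hEdim] at hEty
  set h : Hom M (T1.repOf E) :=
    { v := g.rangeRestrict
      w := ι
      u := ψ
      hf := by
        apply LinearMap.ext
        intro v
        apply Subtype.ext
        rfl
      hx := by
        apply LinearMap.ext
        intro u
        exact (hψx u).symm
      hy := by
        apply LinearMap.ext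
        intro u
        exact (hψy u).symm } with hh
  have hhi : h.Inj := by
    refine ⟨?_, hιi, ?_⟩
    · intro s t hst
      apply hgi
      exact congrArg Subtype.val hst
    · rw [← LinearMap.ker_eq_bot, LinearMap.ker_eq_bot']
      intro u hu
      have h1 : ι (M.x u) = 0 := by
        rw [← hψx u]
        have : ψ u = 0 := hu
        rw [this, map_zero]
      have h2 : M.x u = 0 := hιi (by rw [h1, map_zero])
      apply hpi 1 0 (by simp)
      rw [h2, smul_zero, zero_smul, zero_add]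
  exact stable_of_repOf hn hα E hc0 (by rw [hEdim]; exact hk)
    (stable_of_iso h hhi (by rw [hty, hEty]) hM)

end CohP1
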